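import Pool.Agent.Y703.CQ.Stm

/-!
# Project X15-D: the proportion of the good discriminants

`D` runs over the squarefree numbers `≡ 1` or `49` modulo `60`, i.e. `D ≡ 1` modulo `4`, `(D/3) = (D/5)
= 1`, with no restriction on the prime factors.  The matrix `M` over `𝔽₂` has `M_pq = [(q/p) = -1]` for
`p ≠ q` and `M_pp = ∑_{q ≠ p} M_pq + [p ≡ 3 mod 4]`; `D` is good if the only `x` with `M x = 0` and
`∑_{(p/5) = -1} x_p = 0` is `0`.  The proportion is `∏_{i ≥ 1} (1 - 2^{-i}) = 0.28878...`.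
Adaptation of the project CQ (`Pool.Agent.Y703.CQ.Stm`).
-/

set_option autoImplicit false
set_option linter.unusedVariables false

open scoped Classical

namespace Pool.Agent.H757_X15.DD

open Finset
open Pool.Agent.Y703.CX (sm la jj XX eL zz kk S_SIE)
open Pool.Agent.Y703.CQ (nr sg prs HB ext S_EQ)

/-- `1` for `p ≡ 3` modulo `4` -/
def aa (p : ℕ) : ZMod 2 := if p % 4 = 3 then 1 else 0

/-- `1` if `p` is not a square modulo `5` -/
def bb (p : ℕ) : ZMod 2 := if p % 5 = 2 ∨ p % 5 = 3 then 1 else 0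

/-- the kernel -/
def Sol (S : Finset ℕ) (x : ℕ → ZMod 2) : Prop :=
  (∀ p ∈ S, ∑ q ∈ S, nr p q * (x q + x p) + aa p * x p = 0) ∧ ∑ q ∈ S, bb q * x q = 0

/-- the good sets -/
def Gd (S : Finset ℕ) : Prop := ∀ x, Sol S x → ∀ p ∈ S, x p = 0

/-- the class of the numbers -/
def Fm (D : ℕ) : Prop := D % 60 = 1 ∨ D % 60 = 49

/-- the class of the sets of primes -/
def Cl (S : Finset ℕ) : Prop := (∀ p ∈ S, p.Prime ∧ p ≠ 2) ∧ Fm (∏ p ∈ S, p)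

/-- the sets of the class with product at most `X` -/
noncomputable def SS (X : ℕ) : Finset (Finset ℕ) :=
  (range (X + 1)).powerset.filter fun S => Cl S ∧ ∏ p ∈ S, p ≤ X

/-- the limit `(1 - 1/2) (1 - 1/4) (1 - 1/8) ⋯` -/
noncomputable def c1 : ℝ := ∏' i : ℕ, (1 - (1 / 2 : ℝ) ^ (i + 1))

/-- `Crit D`: the only positive divisor `d` of `D` with all the Hilbert symbols `(d, D)_p = 1`, `p ∣ D`,
and `(d/5) = 1` is `1` -/
def Crit (D : ℕ) : Prop := ∀ d : ℕ, d ∣ D →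
  (∀ p : ℕ, p.Prime → p ∣ D → ¬ p ∣ d → jacobiSym d p = 1) →
  (∀ p : ℕ, p.Prime → p ∣ d → jacobiSym (-((D / d : ℕ) : ℤ)) p = 1) →
  jacobiSym d 5 = 1 → d = 1

/-- FINAL: the proportion of the good sets -/
def S_DQ : Prop := Filter.Tendsto
  (fun X : ℕ => (((SS X).filter Gd).card : ℝ) / ((SS X).card : ℝ)) Filter.atTop (nhds c1)

/-- FINAL, in terms of the numbers `D`. -/
def S_DEN : Prop := Filter.Tendsto
  (fun X : ℕ => (((Icc 1 X).filter fun D => Squarefree D ∧ Fm D ∧ Crit D).card : ℝ) /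
    (((Icc 1 X).filter fun D => Squarefree D ∧ Fm D).card : ℝ)) Filter.atTop (nhds c1)

/-- D-CRIT: the criterion and the matrix. -/
def S_CRIT : Prop := ∀ D : ℕ, Squarefree D → Fm D → (Crit D ↔ Gd D.primeFactors)

/-- D-NS: the translation. -/
def S_NS : Prop := S_CRIT → S_DQ → S_DEN

/-- D-BIL: bilinear sums of quadratic symbols for all odd primes. -/
def S_BIL : Prop := ∃ C : ℝ, 1 ≤ C ∧ ∀ (P Q : Finset ℕ) (A B z : ℕ) (c d : ℕ → ℂ),
  (∀ p ∈ P, p.Prime ∧ p ≠ 2 ∧ p ≤ A) → (∀ q ∈ Q, q.Prime ∧ q ≠ 2 ∧ q ≤ B) →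
  Disjoint P Q → 1 ≤ z → z ≤ A → z ≤ B → (∀ p, ‖c p‖ ≤ 1) → (∀ q, ‖d q‖ ≤ 1) →
  ‖∑ p ∈ P, ∑ q ∈ Q, c p * d q * sg (nr p q)‖ ^ 12 * z ≤ C * ((A : ℝ) * B) ^ 12

/-! ### linear algebra -/

/-- the symbols of the large primes from the free ones, by the reciprocity law -/
noncomputable def rec {J : Type} [Fintype J] [LinearOrder J] (g : J → ZMod 2)
    (α : prs (univ : Finset J) → ZMod 2) (k l : J) : ZMod 2 :=
  ext α k l + if l < k then g k * g l else 0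

/-- the block system has only the zero solution -/
def GdA {U J : Type} [Fintype U] [Fintype J] (A : U → U → ZMod 2) (C : J → U → ZMod 2)
    (f b : U → ZMod 2) (g h : J → ZMod 2) (R : J → J → ZMod 2) : Prop :=
  ∀ (x : U → ZMod 2) (y : J → ZMod 2),
    (∀ u, ∑ v, A u v * (x v + x u) + ∑ l, (C l u + f u * g l) * (y l + x u) + f u * x u = 0) →
    (∀ k, ∑ u, C k u * (x u + y k) + ∑ l, R k l * (y l + y k) + g k * y k = 0) →
    ∑ u, b u * x u + ∑ l, h l * y l = 0 → (∀ u, x u = 0) ∧ ∀ l, y l = 0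

/-- D-LA: the probability that a random completion is good. -/
def S_LA : Prop := ∀ ε : ℝ, 0 < ε → ∃ V : ℕ, ∀ (U J : Type) [Fintype U] [Fintype J] [LinearOrder J]
  (A : U → U → ZMod 2) (C : J → U → ZMod 2) (f b : U → ZMod 2) (g h : J → ZMod 2),
  (∀ u v, u ≠ v → A u v = A v u + f u * f v) → ∑ u, f u + ∑ l, g l = 0 →
  (∀ (w : U → ZMod 2) (t s : ZMod 2), ((∃ u, w u ≠ 0) ∨ t ≠ 0 ∨ s ≠ 0) →
    ∃ k, ∑ u, w u * C k u + t * g k + s * h k ≠ 0) →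
  2 * Fintype.card U + V < (univ.filter fun k => g k = 1).card →
  |((univ.filter fun α : prs (univ : Finset J) → ZMod 2 =>
      GdA A C f b g h (rec g α)).card : ℝ) / 2 ^ (prs (univ : Finset J)).card - c1| ≤ ε

/-- D-LA1: the `q`-binomial inclusion-exclusion: `∏_{i < j} (2^r - 2^i)` is the number of the
independent `j`-tuples in a space of dimension `r` over `𝔽₂`. -/
def S_LA1 : Prop := (∀ r : ℕ, ∑ j ∈ range (r + 1), (-1 : ℝ) ^ j *
      (∏ i ∈ range j, ((2 : ℝ) ^ r - 2 ^ i)) / ∏ i ∈ range j, ((2 : ℝ) ^ (i + 1) - 1) =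
        if r = 0 then 1 else 0) ∧
  HasSum (fun j : ℕ => (-1 : ℝ) ^ j / ∏ i ∈ range j, ((2 : ℝ) ^ (i + 1) - 1)) c1 ∧
  (∀ j : ℕ, (2 : ℝ) ^ (j.choose 2) / ∏ i ∈ range j, ((2 : ℝ) ^ (i + 1) - 1) ≤ 4 / 2 ^ j) ∧
  0.2887 < c1 ∧ c1 < 0.2888

/-- D-LA2: the number of the random symmetric matrices with given values of the Laplacian on `j`
vectors which are independent together with `1`. -/
def S_LA2 : Prop := ∀ (J : Type) [Fintype J] [LinearOrder J] (j : ℕ) (y c : Fin j → J → ZMod 2),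
  LinearIndependent (ZMod 2) (Fin.cons (fun _ => 1) y : Fin (j + 1) → J → ZMod 2) →
  ((univ.filter fun α : prs (univ : Finset J) → ZMod 2 =>
      ∀ i k, ∑ l, ext α k l * (y i l + y i k) = c i k).card : ℝ) * 2 ^ (Fintype.card J * j) =
    if (∀ i, ∑ k, c i k = 0) ∧ (∀ i i', ∑ k, (y i' k * c i k + y i k * c i' k) = 0)
    then (2 : ℝ) ^ ((prs (univ : Finset J)).card + j + j.choose 2) else 0

/-- D-LA3: the number of the isotropic tuples for an alternating form with small radical. -/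
def S_LA3 : Prop := ∀ (V W : Type) [AddCommGroup V] [Module (ZMod 2) V] [Fintype V]
  [AddCommGroup W] [Module (ZMod 2) W] (ω : V →ₗ[ZMod 2] V →ₗ[ZMod 2] ZMod 2)
  (π : V →ₗ[ZMod 2] W), (∀ v, ω v v = 0) → ∀ j : ℕ,
  |((univ.filter fun w : Fin j → V => LinearIndependent (ZMod 2) (fun i => π (w i)) ∧
        ∀ i i', ω (w i) (w i') = 0).card : ℝ) * 2 ^ (j.choose 2) - (Fintype.card V : ℝ) ^ j| ≤
    (Fintype.card V : ℝ) ^ j * 2 ^ ((j + 1) ^ 2) *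
      (((univ.filter fun v : V => ∀ v', ω v v' = 0).card : ℝ) +
        ((univ.filter fun v : V => π v = 0).card : ℝ)) / (Fintype.card V : ℝ)

/-- D-LA4: the assembly. -/
def S_LA4 : Prop := S_LA1 → S_LA2 → S_LA3 → S_LA

/-! ### boxes -/

/-- the labels of the large primes with respect to the small ones, `-1` and `5` are not degenerate -/
def Nd (S₀ S₁ : Finset ℕ) : Prop :=
  ∀ (w : ℕ → ZMod 2) (t s : ZMod 2), ((∃ u ∈ S₀, w u ≠ 0) ∨ t ≠ 0 ∨ s ≠ 0) →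
    ∃ p ∈ S₁, ∑ u ∈ S₀, w u * nr p u + t * aa p + s * bb p ≠ 0

/-- D-BOX: the count in a box. -/
def S_BOX : Prop := S_EQ → S_LA → ∀ ε : ℝ, 0 < ε → ∃ V : ℕ, ∀ (ι : Type) [Fintype ι] [LinearOrder ι]
  (C : ι → Finset ℕ) (X : ι → ℕ) (κ : ℝ) (S₀ : Finset ℕ), 0 ≤ κ →
  (∀ i, (C i).card ≤ X i) → HB univ C X κ → (∀ u ∈ S₀, u.Prime ∧ u ≠ 2) →
  (∀ i, ∀ p ∈ C i, p.Prime ∧ p ≠ 2 ∧ p ∉ S₀) →
  (∀ i, ∀ p ∈ C i, ∀ q ∈ C i, p % 60 = q % 60) →
  (∀ i l, i ≠ l → Disjoint (C i) (C l)) →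
  (∀ p ∈ Fintype.piFinset C, Cl (S₀ ∪ univ.image p)) →
  2 * S₀.card + V < (univ.filter fun i => ∀ p ∈ C i, p % 4 = 3).card →
  |(((Fintype.piFinset C).filter fun p => Nd S₀ (univ.image p) ∧ Gd (S₀ ∪ univ.image p)).card : ℝ) -
      c1 * (((Fintype.piFinset C).filter fun p => Nd S₀ (univ.image p)).card : ℝ)| ≤
    ε * (((Fintype.piFinset C).filter fun p => Nd S₀ (univ.image p)).card : ℝ) +
    2 ^ ((2 * S₀.card + 1) * Fintype.card ι + (prs (univ : Finset ι)).card) * (κ * ∏ j, (X j : ℝ))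

/-- the regular sets -/
noncomputable def RR (X z H k V : ℕ) : Finset (Finset ℕ) :=
  (SS X).filter fun S => Set.InjOn (jj H) (la z S : Set ℕ) ∧ S.card ≤ k ∧
    (∏ p ∈ sm z S, p) * ∏ p ∈ la z S, XX H (jj H p) ≤ X ∧
    2 * (sm z S).card + V < ((la z S).filter fun p => p % 4 = 3).card

/-- D-KEY: the sum over the boxes. -/
def S_KEY : Prop := S_BIL → S_EQ → S_LA → S_BOX → ∃ C : ℝ, 1 ≤ C ∧ ∀ ε : ℝ, 0 < ε → ∃ V : ℕ,
  ∀ (X z H k N : ℕ) (κ : ℝ), 1 ≤ X → 1 ≤ H → 1 ≤ z →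
  0 ≤ κ → C ≤ κ ^ 12 * z → (H : ℝ) * Real.log X < N →
  |(((RR X z H k V).filter fun S => Nd (sm z S) (la z S) ∧ Gd S).card : ℝ) -
      c1 * (((RR X z H k V).filter fun S => Nd (sm z S) (la z S)).card : ℝ)| ≤
    ε * ((RR X z H k V).card : ℝ) +
    (60 * N + 60 : ℝ) ^ k * (3 ^ (3 * k ^ 2) * κ) * (X * (1 + Real.log X))

/-- D-CNT: sets with many primes, sets near the boundary, sets with two primes in a block. -/
structure CntP : Prop where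
  many : ∀ (X k : ℕ), 1 ≤ X →
    (((SS X).filter fun S => k < S.card).card : ℝ) * 2 ^ k ≤ X * (1 + Real.log X)
  cut : ∀ (X z H k : ℕ), 1 ≤ X → 1 ≤ H →
    (((SS X).filter fun S => S.card ≤ k ∧
      X < (∏ p ∈ sm z S, p) * ∏ p ∈ la z S, XX H (jj H p)).card : ℝ) ≤ X * k / H + 1
  coll : ∀ (X z H : ℕ), 1 ≤ X → 1 ≤ H → (((SS X).filter fun S =>
    ¬ Set.InjOn (jj H) (la z S : Set ℕ)).card : ℝ) ≤ 4 * X * (1 + Real.log X) / H

/-- the sets of primes on which `± 5^s ∏ W` is a square -/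
noncomputable def HD (W : Finset ℕ) (t s : ZMod 2) (T : ℕ) : Finset (Finset ℕ) :=
  (range (T + 1)).powerset.filter fun S => (∀ p ∈ S, p.Prime ∧ p ≠ 2 ∧ p ∉ W ∧
    ∑ u ∈ W, nr p u + t * aa p + s * bb p = 0) ∧ ∏ p ∈ S, p ≤ T

/-- D-HAL: the logarithmic density for a nontrivial quadratic character. -/
def S_HAL : Prop := ∃ C : ℝ, 1 ≤ C ∧ ∀ (W : Finset ℕ) (t s : ZMod 2) (T : ℕ),
  (W.Nonempty ∨ t ≠ 0 ∨ s ≠ 0) → (∀ u ∈ W, u.Prime ∧ 7 ≤ u) → 2 ≤ T →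
  ∑ S ∈ HD W t s T, (1 : ℝ) / ((∏ p ∈ S, p : ℕ) : ℝ) ≤
    C * (Real.log ((20 * ∏ u ∈ W, u : ℕ) : ℝ)) ^ (1 / 2 : ℝ) * (Real.log T) ^ (1 / 2 : ℝ)

/-- D-MER: Mertens' theorem modulo `4`. -/
def S_MER : Prop := ∀ a : ℕ, a = 1 ∨ a = 3 → ∃ C : ℝ, ∀ y : ℕ, 3 ≤ y →
  |∑ p ∈ (range (y + 1)).filter (fun p => p.Prime ∧ p % 4 = a), (1 : ℝ) / p -
    1 / 2 * Real.log (Real.log y)| ≤ C

/-- D-BAD: few sets have degenerate labels. -/
def S_BAD : Prop := S_SIE → S_HAL → ∃ (C : ℝ) (X₀ : ℕ), ∀ X : ℕ, X₀ ≤ X →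
  (((SS X).filter fun S => S.card ≤ kk X ∧ ¬ Nd (sm (zz X) S) (la (zz X) S)).card : ℝ) ≤
    C * X * (Real.log X) ^ (-(1 / 32) : ℝ)

/-- D-FEW: few sets have few large primes `≡ 3` modulo `4`. -/
def S_FEW : Prop := S_SIE → S_MER → ∀ V : ℕ, ∃ (C : ℝ) (X₀ : ℕ), ∀ X : ℕ, X₀ ≤ X →
  (((SS X).filter fun S => ((la (zz X) S).filter fun p => p % 4 = 3).card ≤
      2 * (sm (zz X) S).card + V).card : ℝ) ≤ C * X * (Real.log X) ^ (-(1 / 32) : ℝ)

/-- D-LOW: the class has positive density. -/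
def S_LOW : Prop := ∃ (c : ℝ) (X₀ : ℕ), 0 < c ∧ ∀ X : ℕ, X₀ ≤ X → c * X ≤ ((SS X).card : ℝ)

/-- D-DEN2: the number of the squarefree numbers of the class (for the explicit constant) -/
def S_DEN2 : Prop := Filter.Tendsto (fun X : ℕ =>
    (((Icc 1 X).filter fun D => Squarefree D ∧ Fm D).card : ℝ) / X) Filter.atTop
      (nhds (5 / (16 * Real.pi ^ 2)))

/-- D-ASY: the final asymptotics. -/
def S_ASY : Prop := S_BIL → S_EQ → S_LA → S_BOX → S_KEY → CntP → S_BAD → S_FEW → S_LOW → S_SIE →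
  S_HAL → S_MER → S_DQ

end Pool.Agent.H757_X15.DD
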