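import Pool.Agent.Z700.Defs
import Pool.Agent.H757_X15.StmD

/-!
# Project X15-B: the definite side

The lattice `V = ℤ³ ∋ v = (p, q, s)`, `z = q + s ω`, with the form `3 p² + q² - q s + s²`, and the
weighted sums `pii D β` over the vectors of norm `D` with a given isotropic line modulo `5`.
See the paper, part 2.  All the statements were checked by computer.
-/

set_option autoImplicit false
set_option linter.unusedVariables false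

namespace Pool.Agent.H757_X15.BB

open Finset Matrix
open Pool.Agent.Z700 (V3 fac hh)
open Pool.Agent.H757_X15.DD (Fm)

noncomputable section

/-- the norm `3 p² + q² - q s + s²` -/
def nm (v : V3) : ℤ := 3 * v 0 ^ 2 + v 1 ^ 2 - v 1 * v 2 + v 2 ^ 2

/-- the bilinear form `tr v w = nm (v + w) - nm v - nm w` -/
def tr (v w : V3) : ℤ := 6 * (v 0 * w 0) + 2 * (v 1 * w 1) - v 1 * w 2 - v 2 * w 1 + 2 * (v 2 * w 2)

/-- the vectors of norm `n` -/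
def vec (n : ℤ) : Finset V3 :=
  (Fintype.piFinset fun _ => Icc (-n) n).filter fun v => nm v = n

/-- the number of pairs of vectors with given norms and inner product -/
def cp (n1 b n2 : ℤ) : ℕ := ((vec n1 ×ˢ vec n2).filter fun q => tr q.1 q.2 = b).card

/-- the character modulo `4` -/
def chi4 (n : ℤ) : ℤ := if n % 4 = 1 then 1 else if n % 4 = 3 then -1 else 0

/-- the character `(-2/·)` -/
def chim2 (n : ℤ) : ℤ := if n % 8 = 1 ∨ n % 8 = 3 then 1 else if n % 8 = 5 ∨ n % 8 = 7 then -1 else 0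

/-- the character modulo `12` -/
def chi12 (n : ℤ) : ℤ := if n % 12 = 1 ∨ n % 12 = 11 then 1 else if n % 12 = 5 ∨ n % 12 = 7 then -1
  else 0

/-! ### pairs of vectors -/

/-- the Gram matrix of the form `P² + a² - a b + b²` (the form `tr`) -/
def GM : Matrix (Fin 3) (Fin 3) ℤ := !![2, 0, 0; 0, 2, -1; 0, -1, 2]

/-- positive definite symmetric even matrices of determinant six -/
def PosE (M : Matrix (Fin 3) (Fin 3) ℤ) : Prop :=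
  Mᵀ = M ∧ 0 < M 0 0 ∧ 0 < M 0 0 * M 1 1 - M 0 1 ^ 2 ∧ M.det = 6 ∧
    Even (M 0 0) ∧ Even (M 1 1) ∧ Even (M 2 2)

/-- B1 (UQ): `GM` is the only positive even lattice of dimension three and determinant six; it has
12 rotations (after `Y288.Z7.Tors`) -/
def S_UQ : Prop := ∀ M : Matrix (Fin 3) (Fin 3) ℤ, PosE M →
  Nat.card {A : Matrix (Fin 3) (Fin 3) ℤ // Aᵀ * GM * A = M ∧ A.det = 1} = 12

/-- the parameters of the pairs with Gram matrix `(n1, b; b, n2)`, `Δ = 4 n1 n2 - b² = 3 e² δ`: tuples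
`(e, μ, β, ν)`.  Meaning: `v ↦ x = (3 p, √-3 z)` maps the vectors of norm `n` of `V` onto all vectors of
norm `3 n` of the lattice `P² + N(Z)`; `f₁ = x(v)`, `x(w) = k f₁ + 3 e f₂`, `B(f₁,f₂) = 3 μ`,
`B(f₁,f₃) = 3 ν`, `β = 2 n1 B(f₂,f₃) - 3 μ ν`. -/
def XX (n1 : ℕ) (b : ℤ) (D : ℕ) : Finset (ℕ × ℕ × ℕ × ℕ) :=
  (range (D + 1) ×ˢ range (2 * n1) ×ˢ range D ×ˢ range (2 * n1)).filter fun q =>
    0 < q.1 ∧ 3 * q.1 ^ 2 ∣ D ∧ q.2.2.1 < D / (3 * q.1 ^ 2) ∧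
    (2 * n1 : ℤ) ∣ 3 * q.1 * q.2.1 - b ∧ 4 * n1 ∣ 3 * q.2.1 ^ 2 + D / (3 * q.1 ^ 2) ∧
    (D / (3 * q.1 ^ 2)) ∣ q.2.2.1 ^ 2 + 4 * n1 ∧ 2 * n1 ∣ q.2.2.1 + 3 * q.2.1 * q.2.2.2 ∧
    4 * n1 ∣ (4 * n1 + q.2.2.1 ^ 2) / (D / (3 * q.1 ^ 2)) + 3 * q.2.2.2 ^ 2

/-- B2 (CNT): the pairs of vectors are parametrized by `XX` and the rotations (after `Y288.Z7.Cnt`) -/
def S_CNT : Prop := S_UQ → ∀ (n1 n2 : ℕ) (b : ℤ) (D : ℕ), Squarefree n1 → n1 % 12 = 1 → n2 % 12 = 1 →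
  0 < D → (D : ℤ) = 4 * n1 * n2 - b ^ 2 → cp n1 b n2 = 12 * (XX n1 b D).card

/-- the local condition at `2` for `b ≡ 2` modulo `4` (`h = v₂(D) ≥ 4`) -/
def kap (n1 D : ℕ) : ℤ :=
  if chi4 (D / 2 ^ D.factorization 2 : ℕ) = -(jacobiSym 2 n1) ^ D.factorization 2 then 1 else 0

/-- the local factor at `2`, as a function of `b` -/
def c2 (n1 D : ℕ) (b : ℤ) : ℤ := if b % 2 = 1 then 1 else if b % 4 = 2 then 2 * kap n1 D else 0

/-- the primes `> 3` dividing `D` -/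
def pf3 (D : ℕ) : Finset ℕ := (D.primeFactors.erase 2).erase 3

/-- B3 (XC): evaluation of the number of parameters (after `Y155.Z7.XC`) -/
def S_XC : Prop := ∀ (n1 n2 : ℕ) (b : ℤ) (D : ℕ), Squarefree n1 → n1 % 12 = 1 → n2 % 12 = 1 →
  0 < D → (D : ℤ) = 4 * n1 * n2 - b ^ 2 →
  ((XX n1 b D).card : ℤ) =
    if Odd (D.factorization 3) then c2 n1 D b * ∏ l ∈ pf3 D, fac n1 D l else 0

/-- PC: the number of pairs of vectors with given Gram matrix -/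
def S_PC : Prop := ∀ (n1 n2 : ℕ) (b : ℤ) (D : ℕ), Squarefree n1 → n1 % 12 = 1 → n2 % 12 = 1 →
  0 < D → (D : ℤ) = 4 * n1 * n2 - b ^ 2 →
  (cp n1 b n2 : ℤ) =
    if Odd (D.factorization 3) then 12 * (c2 n1 D b * ∏ l ∈ pf3 D, fac n1 D l) else 0

theorem pc_of (h1 : S_UQ) (h2 : S_CNT) (h3 : S_XC) : S_PC := by
  intro n1 n2 b D hs a1 a2 hD hDD
  rw [h2 h1 n1 n2 b D hs a1 a2 hD hDD]
  have h := h3 n1 n2 b D hs a1 a2 hD hDD
  push_cast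
  rw [h]
  split_ifs <;> simp

/-! ### lines, types, orientations -/

/-- the isotropic line of `n` is the one attached to `v` and `β` -/
def Ln (n : Fin 3 → ZMod 5) (β : ZMod 5) (v : V3) : Prop :=
  3 * ((v 1 : ZMod 5) * n 2 - (v 2 : ZMod 5) * n 1) = β * n 0 ∧
  ((v 0 : ZMod 5) * n 1 - n 0 * (v 1 : ZMod 5)) - 2 * ((v 0 : ZMod 5) * n 2 - n 0 * (v 2 : ZMod 5)) =
    β * n 1 ∧
  2 * ((v 0 : ZMod 5) * n 1 - n 0 * (v 1 : ZMod 5)) - ((v 0 : ZMod 5) * n 2 - n 0 * (v 2 : ZMod 5)) =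
    β * n 2

instance (n : Fin 3 → ZMod 5) (β : ZMod 5) (v : V3) : Decidable (Ln n β v) := by
  unfold Ln; infer_instance

/-- isotropic vectors modulo `5` -/
def Iso (n : Fin 3 → ZMod 5) : Prop := n ≠ 0 ∧ 3 * n 0 ^ 2 + n 1 ^ 2 - n 1 * n 2 + n 2 ^ 2 = 0

/-- the base isotropic vector -/
def n0 : Fin 3 → ZMod 5 := ![1, 1, 3]

/-- the sign of an isotropic line -/
def sgl (n : Fin 3 → ZMod 5) : ℤ := if n 1 * n 2 * (n 2 - n 1) = n 0 ^ 3 then 1 else -1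

/-- the weight `χ v = ±1`: `z ≡ χ(v) ω^i` modulo `4` -/
def chv (v : V3) : ℤ := if v 2 % 4 = 0 then chi4 (v 1) else if v 1 % 4 = 0 then chi4 (v 2) else
  -chi4 (v 1)

/-- the type `i` of a vector: `z ≡ χ(v) ω^i` modulo `4` -/
def ty (v : V3) : Fin 3 := if v 2 % 4 = 0 then 0 else if v 1 % 4 = 0 then 1 else 2

/-- the orientation `± 1 ≡ q + s` modulo `3` -/
def ep (v : V3) : ℤ := if (v 1 + v 2) % 3 = 1 then 1 else -1

/-- the Gross sum -/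
def pii (D : ℕ) (β : ZMod 5) : ℤ := ∑ v ∈ (vec D).filter fun v => Ln n0 β v, chv v

/-- the sum over the vectors with given line, type and orientation -/
def Tg (D : ℕ) (β : ZMod 5) (n : Fin 3 → ZMod 5) (i : Fin 3) (ε : ℤ) : ℤ :=
  ∑ v ∈ (vec D).filter fun v => Ln n β v ∧ ty v = i ∧ ep v = ε, chv v

/-- the type attached to a line -/
def tl (n : Fin 3 → ZMod 5) : Fin 3 := if n 2 = 2 * n 1 then 0 else if n 1 = 2 * n 2 then 1 else 2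

/-- B5 (JAC): from Gordon's identity (the derivative of the quintuple product identity)
`∏ (1 - q^n)³ (1 - q^(2n-1))² = ∑ (6 m + 1) q^(m(3m+1)/2)` -/
def S_JAC : Prop := ∀ n : ℕ, n % 8 = 1 → ¬ IsSquare n →
  ∑ v ∈ (Fintype.piFinset fun _ : Fin 3 => Icc (-(n : ℤ)) n).filter fun v : V3 =>
    v 0 ^ 2 + 12 * v 1 ^ 2 + 12 * v 2 ^ 2 = n, chi12 (v 0) * (-1) ^ (v 2).natAbs = 0

/-- B6 (SG): dependence on the line, the type and the orientation (paper, part 2, section 2) -/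
def S_SG : Prop := ∀ D : ℕ, Squarefree D → Fm D → ∀ β : ZMod 5, β ^ 2 = -(D : ZMod 5) →
  ∀ n : Fin 3 → ZMod 5, Iso n →
  (∑ i : Fin 3, (Tg D β n i 1 + Tg D β n i (-1)) = sgl n * pii D β) ∧
  (D % 8 = 1 → ∀ i, i ≠ tl n → Tg D β n i 1 + Tg D β n i (-1) = 0) ∧
  (D % 8 = 5 → (∀ i, Tg D β n i 1 = Tg D β n i (-1)) ∧ Tg D β n (tl n) 1 = 0 ∧
    ∀ i, i ≠ tl n → 4 * Tg D β n i 1 = sgl n * pii D β) ∧
  (D ≠ 1 → ∑ i : Fin 3, Tg D β n i 1 = ∑ i : Fin 3, Tg D β n i (-1))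

/-! ### the bilinear identity -/

/-- the discriminant attached to `b` -/
def dis (D1 D2 : ℕ) (b : ℤ) : ℕ := (4 * (D1 : ℤ) * D2 - b ^ 2).toNat

/-- the weight of a pair of vectors as a function of the inner product, `D = D1 D2` -/
def wt (D : ℕ) (b : ℤ) : ℤ :=
  if b % 2 = 1 then -chi4 b else if b % 4 = 2 then (-1) ^ ((D - 1) / 8) * chim2 (b / 2) else 0

/-- the local densities away from `2` and `3`, with the count at `5` -/
def loc (n1 D : ℕ) : ℤ :=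
  if Odd (D.factorization 3) then
    (D.factorization 5 : ℤ) * ∏ l ∈ (pf3 D).erase 5, fac n1 D l
  else 0

/-- the pairs with a common line and inner product `b`, weighted -/
def DD (D1 D2 : ℕ) (β1 β2 : ZMod 5) (b : ℤ) : ℤ :=
  ∑ q ∈ (vec D1 ×ˢ vec D2).filter fun q => tr q.1 q.2 = b ∧
    ∃ n : Fin 3 → ZMod 5, n ≠ 0 ∧ Ln n β1 q.1 ∧ Ln n β2 q.2, chv q.1 * chv q.2

/-- the pairs which are proportional modulo `5` -/
def cp5 (N1 b N2 : ℤ) (β1 β2 : ZMod 5) : ℕ := ((vec N1 ×ˢ vec N2).filter fun q =>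
  tr q.1 q.2 = b ∧ ∀ i, β2 * (q.1 i : ZMod 5) = β1 * (q.2 i : ZMod 5)).card

/-- the admissible inner products -/
def Ad (D : ℕ) (b : ℤ) : Prop := b % 3 = 1 ∧ (b % 2 = 1 ∨ D % 8 = 1)

instance (D : ℕ) (b : ℤ) : Decidable (Ad D b) := by unfold Ad; infer_instance

/-- the range of `b` -/
def rg (D : ℕ) : Finset ℤ := Ioo (-(4 * (D : ℤ))) (4 * (D : ℤ))

/-- B8 (BIL1): the product of two Gross sums as a sum over pairs of vectors -/
def S_BIL1 : Prop := ∀ D1 D2 : ℕ, Squarefree D1 → Fm D1 → Squarefree D2 → Fm D2 →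
  (D1 ≠ 1 ∨ D2 ≠ 1) → ∀ β1 β2 : ZMod 5, β1 ^ 2 = -(D1 : ZMod 5) → β2 ^ 2 = -(D2 : ZMod 5) →
  3 * (pii D1 β1 * pii D2 β2) = ∑ b ∈ (rg (D1 * D2)).filter fun b => Ad (D1 * D2) b, DD D1 D2 β1 β2 b

/-- B7 (BIL2A): weights and coincidences -/
def S_BIL2A : Prop := ∀ D1 D2 : ℕ, Squarefree D1 → Fm D1 → Squarefree D2 → Fm D2 →
  ∀ β1 β2 : ZMod 5, β1 ^ 2 = -(D1 : ZMod 5) → β2 ^ 2 = -(D2 : ZMod 5) → ∀ b : ℤ,
  (b % 2 = 1 ∨ (D1 * D2) % 8 = 1) →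
  2 * DD D1 D2 β1 β2 b =
    if (b : ZMod 5) = -2 * (β1 * β2) then wt (D1 * D2) b * (cp D1 b D2 + cp5 D1 b D2 β1 β2) else 0

/-- B4 (BIL2B): evaluation of the counts (after `Z700.BIL2B`) -/
def S_BIL2B : Prop := S_PC → ∀ D1 D2 : ℕ, Squarefree D1 → Fm D1 → Squarefree D2 → Fm D2 →
  (D1 ≠ 1 ∨ D2 ≠ 1) → ∀ β1 β2 : ZMod 5, (Nat.Coprime D1 D2 ∨ (D1 = D2 ∧ β1 = β2)) →
  β1 ^ 2 = -(D1 : ZMod 5) → β2 ^ 2 = -(D2 : ZMod 5) → ∀ b : ℤ, b % 3 = 1 →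
  (b : ZMod 5) = -2 * (β1 * β2) →
  ((cp D1 b D2 + cp5 D1 b D2 β1 β2 : ℕ) : ℤ) =
    if 0 < dis D1 D2 b then 24 * (c2 D1 (dis D1 D2 b) b * loc D1 (dis D1 D2 b)) else 0

/-- the arithmetic side of the bilinear identity, `r ≡ 2 r₅(D1) r₅(D2)` modulo `5` -/
def RR (D1 D2 : ℕ) (r : ZMod 5) : ℤ :=
  ∑ b ∈ (rg (D1 * D2)).filter fun b : ℤ =>
    Ad (D1 * D2) b ∧ (b : ZMod 5) = r ∧ 0 < dis D1 D2 b,
    4 * (wt (D1 * D2) b * (c2 D1 (dis D1 D2 b) b * loc D1 (dis D1 D2 b)))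

/-- FINAL (BIL): the bilinear identity -/
def S_BIL : Prop := ∀ D1 D2 : ℕ, Squarefree D1 → Fm D1 → Squarefree D2 → Fm D2 →
  (D1 ≠ 1 ∨ D2 ≠ 1) → ∀ β1 β2 : ZMod 5, (Nat.Coprime D1 D2 ∨ (D1 = D2 ∧ β1 = β2)) →
  β1 ^ 2 = -(D1 : ZMod 5) → β2 ^ 2 = -(D2 : ZMod 5) →
  pii D1 β1 * pii D2 β2 = RR D1 D2 (-2 * (β1 * β2))

theorem bil_of (h1 : S_BIL1) (h2 : S_BIL2A) (h3 : S_BIL2B) (h4 : S_PC) : S_BIL := by
  intro D1 D2 s1 f1 s2 f2 hne β1 β2 hc e1 e2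
  have k1 := h1 D1 D2 s1 f1 s2 f2 hne β1 β2 e1 e2
  have k2 : ∀ b ∈ (rg (D1 * D2)).filter (fun b : ℤ => Ad (D1 * D2) b),
      DD D1 D2 β1 β2 b = if (b : ZMod 5) = -2 * (β1 * β2) ∧ 0 < dis D1 D2 b then
        3 * (4 * (wt (D1 * D2) b * (c2 D1 (dis D1 D2 b) b * loc D1 (dis D1 D2 b)))) else 0 := by
    intro b hb
    obtain ⟨hb1, hb3, hb2⟩ := Finset.mem_filter.1 hb
    have m1 := h2 D1 D2 s1 f1 s2 f2 β1 β2 e1 e2 b hb2
    by_cases hr : (b : ZMod 5) = -2 * (β1 * β2)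
    · have m2 := h3 h4 D1 D2 s1 f1 s2 f2 hne β1 β2 hc e1 e2 b hb3 hr
      rw [if_pos hr] at m1
      push_cast at m2
      rw [m2] at m1
      by_cases hD : 0 < dis D1 D2 b
      · rw [if_pos ⟨hr, hD⟩]
        rw [if_pos hD] at m1
        linarith
      · rw [if_neg (fun h => hD h.2)]
        rw [if_neg hD] at m1
        linarith
    · rw [if_neg (fun h => hr h.1)]
      rw [if_neg hr] at m1
      linarith
  rw [Finset.sum_congr rfl k2, ← Finset.sum_filter, ← Finset.mul_sum, Finset.filter_filter] at k1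
  have k3 : RR D1 D2 (-2 * (β1 * β2)) = ∑ b ∈ (rg (D1 * D2)).filter fun b : ℤ =>
      Ad (D1 * D2) b ∧ (b : ZMod 5) = -2 * (β1 * β2) ∧ 0 < dis D1 D2 b,
    4 * (wt (D1 * D2) b * (c2 D1 (dis D1 D2 b) b * loc D1 (dis D1 D2 b))) := rfl
  rw [← k3] at k1
  linarith

end

end Pool.Agent.H757_X15.BB
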