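import Pool.Agent.W97.MT.QX
import Pool.Agent.Y700.Defs
import Pool.Agent.Y687.Comb

/-!
# Quadratic twists of `X_0(15)`: definitions for the modular side (project A, helper757)

`E = X_0(15) : y² + x y + y = x³ + x² - 10 x - 10`.  All the generic notions (`qq`, `Q`, `G`, `Rep`,
`Tr`, `ap`, `affCount`, `IsGloballyMinimal`, `hecke`) are those of `Pool.Agent.W97.MT` and
`Pool.Agent.W97.TW`.
-/

set_option autoImplicit false

open UpperHalfPlane MatrixGroups CongruenceSubgroup Filter Topology MeasureTheory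

namespace Pool.Agent.H757_X15

open Pool.Agent.W97.MT (affCount ap IsGloballyMinimal qq)
open Pool.Agent.W97.TW (Q G)

/-- the curve `X_0(15) : y² + x y + y = x³ + x² - 10 x - 10`,
`(2 y + x + 1)² = (x + 1) (x - 3) (4 x + 13)` -/
def E15 : WeierstrassCurve ℤ := ⟨1, 1, 1, -10, -10⟩

/-- the minimal equation of the twist of `X_0(15)` by `M = 1 mod 4`; with `X = 4 (x - 3 M)` and
`Y = 4 (2 y + x + 1)` it is `Y² = X (X + 16 M) (X + 25 M)` -/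
def WD (M : ℤ) : WeierstrassCurve ℤ :=
  ⟨1, (5 * M - 1) / 4, 1, -((19 * M ^ 2 + 1) / 2), -((39 * M ^ 3 + 1) / 4)⟩

/-- `L` is the L-function of the minimal equation `W` (the same as `Pool.Agent.Y700.IsL`) -/
def IsL (W : WeierstrassCurve ℤ) (f : ℂ → ℂ) : Prop :=
  Differentiable ℂ f ∧ ∀ s : ℂ, 3 / 2 < s.re →
    HasProd (fun p : Nat.Primes => (1 - (ap W p : ℂ) * ((p : ℕ) : ℂ) ^ (-s) +
      (if ((p : ℕ) : ℤ) ∣ W.Δ then 0 else ((p : ℕ) : ℂ) ^ (1 - 2 * s)))⁻¹) (f s)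

/-- the Euler factor of `y² = x³ + A x + B` (the same as `Pool.Agent.Y687.fac`) -/
noncomputable def facL (A B : ℤ) (s : ℂ) (p : ℕ) : ℂ :=
  ((1 : ℂ)
            - ((((p : ℤ) - (Nat.card {q : ZMod p × ZMod p //
                  q.2 ^ 2 = q.1 ^ 3 + (A : ZMod p) * q.1 + (B : ZMod p)} : ℤ)) : ℤ) : ℂ)
                * ((p : ℂ) ^ (-s))
            + (p : ℂ) ^ (1 - 2 * s))⁻¹

/-! ### the eta products -/

/-- the newform `η(z)η(3z)η(5z)η(15z) = q - q² - q³ - q⁴ + q⁵ + …` -/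
noncomputable def ff (z : ℂ) : ℂ :=
  ModularForm.eta z * ModularForm.eta (3 * z) * ModularForm.eta (5 * z) * ModularForm.eta (15 * z)

/-- the function `x + 1 = q^(-2) + q^(-1) + 2 + 2 q + …` -/
noncomputable def X1 (z : ℂ) : ℂ :=
  (ModularForm.eta z)⁻¹ * ModularForm.eta (3 * z) * ModularForm.eta (5 * z) ^ 5 *
    (ModularForm.eta (15 * z) ^ 5)⁻¹

/-- the function `V = q^(-1) + 3 + 9 q + 19 q² + …` -/
noncomputable def Y2 (z : ℂ) : ℂ :=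
  (ModularForm.eta z ^ 3)⁻¹ * ModularForm.eta (3 * z) ^ 3 * ModularForm.eta (5 * z) ^ 3 *
    (ModularForm.eta (15 * z) ^ 3)⁻¹

/-- the expansion of `X1`: `X1 = xi(q) / q²` -/
noncomputable def xi (q : ℂ) : ℂ := (Q q)⁻¹ * Q (q ^ 3) * Q (q ^ 5) ^ 5 * (Q (q ^ 15) ^ 5)⁻¹

/-- the expansion of `Y2`: `Y2 = ups(q) / q` -/
noncomputable def ups (q : ℂ) : ℂ := (Q q ^ 3)⁻¹ * Q (q ^ 3) ^ 3 * Q (q ^ 5) ^ 3 * (Q (q ^ 15) ^ 3)⁻¹

/-- the expansion of `ff`: `ff = q phi(q)` -/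
noncomputable def phi (q : ℂ) : ℂ := Q q * Q (q ^ 3) * Q (q ^ 5) * Q (q ^ 15)

/-- general product of powers of `η²` -/
noncomputable def Gs (a b c d : ℤ) (z : ℂ) : ℂ :=
  G z ^ a * G (3 * z) ^ b * G (5 * z) ^ c * G (15 * z) ^ d

/-- `2πi ∫_{i∞}^{r} ff` along the vertical line -/
noncomputable def II (r : ℚ) : ℂ :=
  2 * Real.pi * ∫ t in Set.Ioi (0 : ℝ), ff ((r : ℂ) + t * Complex.I)

/-! ### the modular symbol -/

/-- the integral even modular symbol of `X_0(15)`, `4 Re (I r) = s r * ω₁` -/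
structure Symb15 (s : ℚ → ℤ) (a : ℕ → ℤ) : Prop where
  per : ∀ x, s (x + 1) = s x
  neg : ∀ x, s (-x) = s x
  hecke : ∀ q : ℕ, q.Prime → ¬ q ∣ 15 → ∀ x,
    a q * s x = s (q * x) + ∑ b ∈ Finset.range q, s ((x + b) / q)
  inv : ∀ (M : ℕ) (b d : ℤ), 0 < M → (M : ℤ) ∣ 15 * b * d - 1 →
    s ((b : ℚ) / M) = s ((d : ℚ) / M)
  odd0 : Odd (s 0)
  aff : ∀ {A B C' D : ℤ}, A * D - B * (15 * C') = 1 → ∀ {x c : ℤ}, IsCoprime (15 * x) c →
    s (((A * x + B * c : ℤ) : ℚ) / ((15 * C' * x + D * c : ℤ) : ℚ)) =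
      s ((x : ℚ) / c) + s ((B : ℚ) / D) - s 0
  a2 : a 2 = -1

end Pool.Agent.H757_X15
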