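import Pool.Agent.H757_X15.DefsA

/-!
# Project X15-A: the statements of the parts

Generic statements that are already proved and are reused as they are: `W97.MT.S_INJ`, `S_SUB`,
`S_SUP`, `S_ODE`, `S_HINT`, `S_QEXP` (see `Pool.Agent.W97.MT.Asm`).
-/

set_option autoImplicit false

open UpperHalfPlane MatrixGroups CongruenceSubgroup Filter Topology MeasureTheory

namespace Pool.Agent.H757_X15

open Pool.Agent.W97.MT (affCount ap IsGloballyMinimal hecke qq)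
open Pool.Agent.Y687 (SS rr)

/-- CP: the constant principle on `X_0(15)` (after `W646.MT.CP`) -/
def S_CP : Prop := ∀ g : ℂ → ℂ, DifferentiableOn ℂ g {z : ℂ | 0 < z.im} →
  (∀ a b c d : ℤ, a * d - b * (15 * c) = 1 → ∀ z : ℂ, 0 < z.im →
    g ((a * z + b) / (15 * c * z + d)) = g z) →
  (∃ B T : ℝ, ∀ z : ℂ, T < z.im → ‖g z‖ ≤ B) →
  (∃ B T : ℝ, 0 ≤ T ∧ ∀ z : ℂ, T < z.im → ‖g (-1 / (15 * z))‖ ≤ B) →
  (∃ B T : ℝ, 0 ≤ T ∧ ∀ z : ℂ, T < z.im → ‖g ((5 * z - 2) / (15 * z - 5))‖ ≤ B) →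
  (∃ B T : ℝ, 0 ≤ T ∧ ∀ z : ℂ, T < z.im → ‖g ((3 * z + 1) / (15 * z + 6))‖ ≤ B) →
  ∃ c : ℂ, ∀ z : ℂ, 0 < z.im → g z = c

/-- LAT: the period lattice is rectangular (after `W646.MT.LAT`) -/
def S_LAT : Prop := ∃ (L : PeriodPair) (Op Om : ℝ), 0 < Op ∧ 0 < Om ∧
  L.g₂ = 481 / 12 ∧ L.g₃ = 4879 / 216 ∧
  ∀ w : ℂ, w ∈ L.lattice ↔ ∃ a b : ℤ, w = a * Op + b * Om * Complex.I

/-- TORS: the point of order four (after `W349.MT.TORS`) -/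
def S_TORS : Prop := ∀ L : PeriodPair, L.g₂ = 481 / 12 → L.g₃ = 4879 / 216 →
  (∀ u : ℂ, u ∉ L.lattice → L.weierstrassP u = 101 / 12 →
    2 * u ∉ L.lattice ∧ L.weierstrassP (2 * u) = 41 / 12 ∧ 4 * u ∈ L.lattice) ∧
  (∀ u : ℂ, u ∉ L.lattice → L.weierstrassP u = -19 / 12 → 4 * u ∈ L.lattice) ∧
  (∀ u : ℂ, u ∉ L.lattice → L.weierstrassP u = -7 / 12 → 2 * u ∈ L.lattice)

/-- HASSE: the coefficient of `q^p` modulo `p` (after `W351.MT.HASSE`) -/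
def S_HASSE : Prop := ∀ (p : ℕ) [Fact p.Prime], p ≠ 2 → ∀ φ ξ σ : PowerSeries (ZMod p),
  PowerSeries.constantCoeff ξ = 1 → PowerSeries.constantCoeff σ = -2 →
  PowerSeries.X * PowerSeries.derivative (ZMod p) ξ - 2 * ξ = φ * σ →
  σ ^ 2 = 4 * ξ ^ 3 - 7 * PowerSeries.X ^ 2 * ξ ^ 2 - 36 * PowerSeries.X ^ 4 * ξ →
  PowerSeries.coeff (p - 1) φ = (ap E15 p : ZMod p)

/-- EIGHT: eight divides the number of points (full two-torsion and the point `(8, 18)` of order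
four) (after `W349.MT.SIX`, `Y687.Eight`) -/
def S_EIGHT : Prop := ∀ p : ℕ, p.Prime → p ≠ 2 → p ≠ 3 → p ≠ 5 → 8 ∣ affCount E15 p + 1

/-- MIN: the model and the small primes (after `W349.MT.MIN`) -/
def S_MIN : Prop := IsGloballyMinimal E15 ∧ E15.c₄ = 481 ∧ E15.c₆ = 4879 ∧ E15.Δ = 50625 ∧
  affCount E15 2 = 3 ∧ affCount E15 3 = 4 ∧ affCount E15 5 = 4 ∧ affCount E15 7 = 7 ∧
  ∀ p : ℕ, p.Prime → affCount E15 p ≤ 2 * p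

/-- OLD: no forms of lower level (after `W598.MT.OLD`) -/
def S_OLD : Prop := ∀ M : ℕ, M ∣ 15 → M ≠ 15 →
  ∀ g : CuspForm (Gamma0 M : Subgroup (GL (Fin 2) ℝ)) 2, ∀ z : ℍ, g z = 0

/-- ARITH: the integral symbol (after `W646.MT.ARITH`) -/
def S_ARITH : Prop := ∀ (I : ℚ → ℂ) (Op Om : ℝ) (L : Set ℂ), 0 < Op → 0 < Om →
  (∀ w : ℂ, w ∈ L ↔ ∃ a b : ℤ, w = a * Op + b * Om * Complex.I) →
  (I 0).im = 0 → 2 * I 0 ∉ L → (∀ r : ℚ, 4 * I r ∈ L) →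
  ∃ s : ℚ → ℤ, (∀ r : ℚ, (4 : ℝ) * (I r).re = s r * Op) ∧ Odd (s 0)

/-- CURVE: the identities between the modular functions (after `W97.MT.Ident`).  Proof: see the
blueprint; `X' := 9 V² / X` is `X` after `z ↦ -1 / (15 z)`. -/
def S_CURVE : Prop :=
  (∀ a b c d : ℤ, a * d - b * (15 * c) = 1 → ∀ z : ℂ, 0 < z.im →
    X1 ((a * z + b) / (15 * c * z + d)) = X1 z ∧ Y2 ((a * z + b) / (15 * c * z + d)) = Y2 z ∧
    ff ((a * z + b) / (15 * c * z + d)) = (15 * c * z + d) ^ 2 * ff z) ∧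
  (∀ z : ℂ, 0 < z.im →
    X1 z * (X1 z + 1) + 9 * Y2 z ^ 2 = X1 z * Y2 z ^ 2 - 5 * X1 z * Y2 z ∧
    deriv X1 z = 2 * Real.pi * Complex.I * ff z * (5 * X1 z - 2 * Y2 z * (X1 z - 9)))

/-- INTEG: all the values of the symbol are four-torsion modulo periods -/
def S_INTEG : Prop := ∀ L : PeriodPair, L.g₂ = 481 / 12 → L.g₃ = 4879 / 216 →
  2 * II 0 ∉ L.lattice ∧ (∀ r : ℚ, 4 * II r ∈ L.lattice) ∧
  (∀ r : ℚ, IntegrableOn (fun t : ℝ => ff ((r : ℂ) + t * Complex.I)) (Set.Ioi 0)) ∧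
  (∀ r : ℚ, ¬ (3 : ℤ) ∣ r.den → ¬ (5 : ℤ) ∣ r.den → II r - II 0 ∈ L.lattice)

/-- the final statement of the project for the symbol -/
def S_SYMB : Prop := ∃ (s : ℚ → ℤ) (L : PeriodPair) (Op Om : ℝ), 0 < Op ∧ 0 < Om ∧
  L.g₂ = 481 / 12 ∧ L.g₃ = 4879 / 216 ∧
  (∀ w : ℂ, w ∈ L.lattice ↔ ∃ a b : ℤ, w = a * Op + b * Om * Complex.I) ∧
  Symb15 s (fun q => ap E15 q) ∧ ∀ r : ℚ, (4 : ℝ) * (II r).re = s r * Op

/-- the final statement for the central value (after `Y700.value`) -/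
def S_VAL : Prop := ∀ (s : ℚ → ℤ) (Op : ℝ), (∀ r : ℚ, (4 : ℝ) * (II r).re = s r * Op) →
  ∀ M : ℕ, Squarefree M → 1 < M → M % 4 = 1 → Nat.Coprime M 15 →
  ∃ (f : ℂ → ℂ) (ε : ℤ), IsL (WD M) f ∧ (ε = 1 ∨ ε = -1) ∧
    f 1 = ((ε * SS s M M * Op / (4 * Real.sqrt M) : ℝ) : ℂ)

/-- the final statement for the central value in the rank form (after `Y687.exists_f_ne`) -/
def S_EUL : Prop := ∀ (s : ℚ → ℤ) (Op : ℝ), 0 < Op → (∀ r : ℚ, (4 : ℝ) * (II r).re = s r * Op) →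
  ∀ M : ℕ, Squarefree M → 1 < M → M % 4 = 1 → Nat.Coprime M 15 → SS s M M ≠ 0 →
  ∃ f : ℂ → ℂ, Differentiable ℂ f ∧
    (∀ z : ℂ, (3 : ℝ) / 2 < z.re →
      HasProd (fun p : {p : ℕ // p.Prime ∧
          ¬ ((p : ℤ) ∣ 2 * (4 * (-12987 * (M : ℤ) ^ 2) ^ 3 + 27 * (-263466 * (M : ℤ) ^ 3) ^ 2))} =>
        facL (-12987 * (M : ℤ) ^ 2) (-263466 * (M : ℤ) ^ 3) z p) (f z)) ∧ f 1 ≠ 0

/-! ### the model of the twists -/

/-- OMEGA: the real period of the twists (after `Y248.BSD14.Omega`) -/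
def S_OMEGA : Prop := ∀ (L : PeriodPair) (Op Om : ℝ), 0 < Op → 0 < Om →
  L.g₂ = 481 / 12 → L.g₃ = 4879 / 216 →
  (∀ w : ℂ, w ∈ L.lattice ↔ ∃ a b : ℤ, w = a * Op + b * Om * Complex.I) →
  ∀ M : ℤ, M % 4 = 1 → 0 < M → Pool.Agent.Y700.Omega (WD M) = 2 * Op / Real.sqrt M

/-- MOD: the minimal equation of the twist -/
def S_MOD : Prop := ∀ M : ℤ, M % 4 = 1 → Squarefree M → ¬ (3 : ℤ) ∣ M → ¬ (5 : ℤ) ∣ M →
  IsGloballyMinimal (WD M) ∧ (WD M).Δ = 15 ^ 4 * M ^ 6 ∧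
  ∃ C : WeierstrassCurve.VariableChange ℚ,
    C • ((WD M).map (Int.castRingHom ℚ)) = ⟨0, 41 * M, 0, 400 * (M : ℚ) ^ 2, 0⟩

end Pool.Agent.H757_X15
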