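import Pool.Agent.H757_X15.DefsA
import Pool.Agent.H757_X15.StmB

/-!
# Project X15-C: the indefinite side and the parity

Binary quadratic forms, crossing numbers with the forms of discriminant `16`, the unfolding, the sum
over the genera and the congruence modulo `8`.  See the paper, part 3.  All the statements were checked
by computer.
-/

set_option autoImplicit false
set_option linter.unusedVariables false

namespace Pool.Agent.H757_X15.CC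

open Finset
open Pool.Agent.Y687 (SS rr)
open Pool.Agent.H757_X15 (Symb15)
open Pool.Agent.H757_X15.DD (Fm Crit)
open Pool.Agent.H757_X15.BB (chi4 wt c2 loc dis RR pii rg S_BIL)

open scoped Classical

noncomputable section

/-! ### forms -/

/-- the form `A x² + B x y + C y²` -/
abbrev Fo := ℤ × ℤ × ℤ

/-- the values of a form -/
def ev (q : Fo) (x y : ℤ) : ℤ := q.1 * x ^ 2 + q.2.1 * (x * y) + q.2.2 * y ^ 2

/-- the discriminant -/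
def dsc (q : Fo) : ℤ := q.2.1 ^ 2 - 4 * (q.1 * q.2.2)

/-- the substitution `(x, y) ↦ (a x + b y, c x + d y)` -/
def act (q : Fo) (a b c d : ℤ) : Fo :=
  (ev q a c, 2 * (q.1 * (a * b)) + q.2.1 * (a * d + b * c) + 2 * (q.2.2 * (c * d)), ev q b d)

/-- equivalence under `Γ₀(N)` -/
def Eqv (N : ℤ) (Q Q' : Fo) : Prop :=
  ∃ a b c d : ℤ, a * d - b * c = 1 ∧ N ∣ c ∧ Q' = act Q a b c d

/-- `R` is a system of representatives of the `Γ₀(N)`-classes in `S` -/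
def IsRep (N : ℤ) (S : Set Fo) (R : Finset Fo) : Prop :=
  (∀ Q ∈ R, Q ∈ S) ∧ ∀ Q ∈ S, ∃! Q', Q' ∈ R ∧ Eqv N Q Q'

/-! ### the crossing numbers -/

/-- the forms of discriminant `16` -/
def Fq (q : Fo) : Prop := dsc q = 16 ∧ 15 ∣ q.1 ∧ (q.2.1 % 30 = 14 ∨ q.2.1 % 30 = 16)

/-- the genus character of a form of discriminant `16`: `χ₄` of an odd value -/
def cQ (q : Fo) : ℤ := if q.1 % 2 = 1 then chi4 q.1 else chi4 q.2.2

/-- the crossing number of `∞` and `x / M` -/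
def NN (x M : ℤ) : ℤ := ∑ᶠ q : Fo, if Fq q ∧ 0 < q.1 ∧ ev q x M < 0 then cQ q else 0

/-- four times the crossing number of `x / y` and `x' / y'` -/
def NC (x y x' y' : ℤ) : ℤ :=
  ∑ᶠ q : Fo, if Fq q then cQ q * ((ev q x y).sign - (ev q x' y').sign) else 0

/-- the cusps with denominator divisible by `15` or prime to `15` -/
def Cu (x y : ℤ) : Prop := IsCoprime x y ∧ (15 ∣ y ∨ IsCoprime y 15)

/-- C1 (NC): the crossing numbers -/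
def S_NC : Prop :=
  (∀ q : Fo, Fq q → ∀ x y : ℤ, Cu x y → ev q x y ≠ 0) ∧
  (∀ x y x' y' : ℤ, Cu x y → Cu x' y' →
    {q : Fo | Fq q ∧ (ev q x y).sign ≠ (ev q x' y').sign}.Finite) ∧
  (∀ x y x' y' x'' y'' : ℤ, Cu x y → Cu x' y' → Cu x'' y'' →
    NC x y x' y' + NC x' y' x'' y'' = NC x y x'' y'') ∧
  (∀ a b c d : ℤ, a * d - b * (15 * c) = 1 → ∀ x y x' y' : ℤ,
    NC (a * x + b * y) (15 * c * x + d * y) (a * x' + b * y') (15 * c * x' + d * y') =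
      NC x y x' y') ∧
  NC 1 0 0 1 = 0 ∧
  (∀ x M : ℤ, IsCoprime x M → IsCoprime M 15 → NC 1 0 x M = 4 * NN x M) ∧
  (∀ x M : ℤ, NN (-x) M = NN x M ∧ NN x (-M) = NN x M)

/-- C1 (NHOM): the crossing number is a homomorphism -/
def S_NHOM : Prop := ∀ a b c d : ℤ, a * d - b * (15 * c) = 1 →
  (∀ x M : ℤ, IsCoprime M 15 → IsCoprime x M →
    NN (a * x + b * M) (15 * c * x + d * M) = NN b d + NN x M) ∧
  4 * NN b d = NC 1 0 a (15 * c)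

/-- C2 (SYM): the modular symbol is given by the crossing numbers -/
def S_SYM : Prop := S_NC → S_NHOM → ∀ (s : ℚ → ℤ) (a : ℕ → ℤ), Symb15 s a →
  ∀ (x : ℤ) (M : ℕ), 0 < M → Nat.Coprime M 15 → IsCoprime x (M : ℤ) →
    s ((x : ℚ) / M) = s 0 * (1 + 2 * NN x M)

/-- C2 (NINV): from `Symb15.inv` and `S_SYM` -/
def S_NINV : Prop := S_NC → S_SYM → (∃ (s : ℚ → ℤ) (a : ℕ → ℤ), Symb15 s a) →
  ∀ M b d : ℤ, M ∣ 15 * b * d - 1 → NN b M = NN d M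

/-! ### the diagonal identity -/

/-- the genus character in terms of the factorization -/
def ps4 (α γ X Y : ℕ) : ℤ :=
  if (α * γ) % 2 = 1 then chi4 (α * γ : ℕ)
  else if (X * Y) % 2 = 1 then chi4 (-((X * Y : ℕ) : ℤ))
  else chi4 (((α : ℤ) - X) * ((γ : ℤ) + Y))

/-- the local weight at `p` -/
def psp (p α γ X Y : ℕ) : ℤ := if p ∣ α ∧ p ∣ X then jacobiSym ((γ * Y : ℕ) : ℤ) p
  else jacobiSym (-((α * X : ℕ) : ℤ)) p

/-- the divisor sum of the indefinite side -/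
def WW (D S T : ℕ) : ℤ :=
  ∑ α ∈ S.divisors.filter (3 ∣ ·), ∑ γ ∈ T.divisors.filter (5 ∣ ·),
    ps4 α γ (T / γ) (S / α) * ∏ p ∈ D.primeFactors, psp p α γ (T / γ) (S / α)

/-- the range of `T` -/
def TT (D : ℕ) : Finset ℕ := (range (4 * D)).filter fun T => 5 ∣ T ∧ 3 ∣ 4 * D - T

/-- C3 (C1A): the forms and the cusps as factorizations (after `Y220.ZD.DIAG`) -/
def S_C1A : Prop := ∀ D : ℕ, Squarefree D → Fm D → D ≠ 1 →
  ∑ u ∈ rr D, jacobiSym u D * NN u D =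
    2 * ∑ T ∈ TT D, ∑ α ∈ (4 * D - T).divisors.filter (3 ∣ ·), ∑ γ ∈ T.divisors.filter (5 ∣ ·),
        ps4 α γ (T / γ) ((4 * D - T) / α) *
          ∑ u ∈ (rr D).filter (fun u : ℕ => (D : ℤ) ∣ (α : ℤ) * (u : ℤ) + ((T / γ : ℕ) : ℤ) ∧
            (D : ℤ) ∣ (γ : ℤ) * (u : ℤ) - (((4 * D - T) / α : ℕ) : ℤ)), jacobiSym u D

/-- C4 (C1B): the character sum over the cusps -/
def S_C1B : Prop := ∀ D : ℕ, Squarefree D → Fm D → D ≠ 1 → ∀ α γ X Y : ℕ,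
  α * Y + γ * X = 4 * D →
  ∑ u ∈ (rr D).filter (fun u : ℕ => (D : ℤ) ∣ (α : ℤ) * (u : ℤ) + (X : ℤ) ∧
    (D : ℤ) ∣ (γ : ℤ) * (u : ℤ) - (Y : ℤ)), jacobiSym u D = ∏ p ∈ D.primeFactors, psp p α γ X Y

/-- C4 (C2): evaluation of the divisor sums -/
def S_C2 : Prop := ∀ D : ℕ, Squarefree D → Fm D → D ≠ 1 → ∀ T ∈ TT D,
  WW D (4 * D - T) T = wt (D * D) (2 * D - T) *
    (c2 D ((4 * D - T) * T) (2 * D - T) * loc D ((4 * D - T) * T))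

/-- DIAG: the character sum is a square -/
def S_DIAG : Prop := ∀ D : ℕ, Squarefree D → Fm D → D ≠ 1 → ∀ β : ZMod 5, β ^ 2 = -(D : ZMod 5) →
  2 * ∑ u ∈ rr D, jacobiSym u D * NN u D = pii D β ^ 2

/-- C3: assembly of DIAG; `b = 2 D - T`, `RR D D (2 D)` -/
def S_DIAGA : Prop := S_C1A → S_C1B → S_C2 → S_BIL → S_DIAG

/-! ### forms of discriminant `D` -/

/-- the forms of level `15` -/
def FQ (D : ℕ) (r : ZMod 5) : Set Fo :=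
  {Q | dsc Q = D ∧ 15 ∣ Q.1 ∧ Q.2.1 % 3 = 1 ∧ (Q.2.1 : ZMod 5) = r}

/-- the forms of level `15` with the other root modulo `3` -/
def FQ' (D : ℕ) (r : ZMod 5) : Set Fo :=
  {Q | dsc Q = D ∧ 15 ∣ Q.1 ∧ Q.2.1 % 3 = 2 ∧ (Q.2.1 : ZMod 5) = r}

/-- the forms of level `5` -/
def F5 (D : ℕ) (r : ZMod 5) : Set Fo := {Q | dsc Q = D ∧ 5 ∣ Q.1 ∧ (Q.2.1 : ZMod 5) = r}

/-- the forms of level `1` -/
def F1 (D : ℕ) : Set Fo := {Q | dsc Q = D}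

/-- the genus character at `p` -/
def chp (p : ℕ) (Q : Fo) : ℤ := if (p : ℤ) ∣ Q.1 then jacobiSym Q.2.2 p else jacobiSym Q.1 p

/-- the genus character of a divisor of the discriminant -/
def chD (d : ℕ) (Q : Fo) : ℤ := ∏ p ∈ d.primeFactors, chp p Q

/-- the least positive solution of `t² - D u² = 4` -/
structure Fund (D : ℕ) (t u : ℤ) : Prop where
  post : 0 < t
  posu : 0 < u
  eq : t ^ 2 - D * u ^ 2 = 4
  min : ∀ t' u' : ℤ, 0 < t' → 0 < u' → t' ^ 2 - D * u' ^ 2 = 4 → t ≤ t'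

/-- the lower right entry of the automorph `γ_Q = ((t - B u)/2, -C u; A u, (t + B u)/2)` -/
def dQ (t u : ℤ) (Q : Fo) : ℤ := (t + Q.2.1 * u) / 2

/-- the crossing number of the automorph -/
def NG (t u : ℤ) (Q : Fo) : ℤ := NN (-(Q.2.2 * u)) (dQ t u Q)

/-- C6 (FUND): existence of the fundamental solution -/
def S_FUND : Prop := ∀ D : ℕ, Squarefree D → 1 < D → ∃ t u : ℤ, Fund D t u

/-- C6 (STAB): the automorphs -/
def S_STAB : Prop := ∀ D : ℕ, Squarefree D → D % 4 = 1 → 1 < D → ∀ t u : ℤ, Fund D t u →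
  ∀ Q : Fo, dsc Q = D → ∃ h : Matrix.SpecialLinearGroup (Fin 2) ℤ,
    (h : Matrix (Fin 2) (Fin 2) ℤ) =
      !![(t - Q.2.1 * u) / 2, -(Q.2.2 * u); Q.1 * u, (t + Q.2.1 * u) / 2] ∧
    act Q (h 0 0) (h 0 1) (h 1 0) (h 1 1) = Q ∧
    ∀ g : Matrix.SpecialLinearGroup (Fin 2) ℤ, act Q (g 0 0) (g 0 1) (g 1 0) (g 1 1) = Q →
      ∃ n : ℤ, g = h ^ n ∨ g = -h ^ n

/-- C6 (INV): the genus characters and `NG` are class functions -/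
def S_CHI : Prop := ∀ D : ℕ, Squarefree D → D % 4 = 1 → ∀ Q Q' : Fo, dsc Q = D → Eqv 1 Q Q' →
  ∀ p ∈ D.primeFactors, chp p Q' = chp p Q ∧ (chp p Q = 1 ∨ chp p Q = -1)

/-- C6 (INV): `NG` is a class function -/
def S_NGI : Prop := S_NC → S_NHOM → ∀ D : ℕ, Squarefree D → Fm D → D ≠ 1 → ∀ t u : ℤ, Fund D t u →
  ∀ Q Q' : Fo, dsc Q = D → 15 ∣ Q.1 → Eqv 15 Q Q' → NG t u Q' = NG t u Q

/-! ### unfolding -/

/-- the roots of a form -/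
def rt (ε : ℝ) (D : ℕ) (Q : Fo) : ℝ := (-(Q.2.1 : ℝ) + ε * Real.sqrt D) / (2 * Q.1)

/-- the sign of a form at a real point -/
def sg (q : Fo) (x : ℝ) : ℤ := (SignType.sign ((q.1 : ℝ) * x ^ 2 + q.2.1 * x + q.2.2) : ℤ)

/-- the crossing of the geodesic of `Q` with the geodesic of `q` -/
def sig (D : ℕ) (Q q : Fo) : ℤ := sg q (rt (-1) D Q) - sg q (rt 1 D Q)

/-- C7 (U12): the unfolding -/
def S_U12 : Prop := S_NC → S_NHOM → S_STAB → ∀ D : ℕ, Squarefree D → Fm D → D ≠ 1 →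
  ∀ r : ZMod 5, r ^ 2 = (D : ZMod 5) → ∀ t u : ℤ, Fund D t u →
  ∀ R RF : Finset Fo, IsRep 15 (FQ D r) R → IsRep 15 {q | Fq q} RF →
  ∀ f : Fo → ℤ, (∀ Q ∈ FQ D r, ∀ Q', Eqv 15 Q Q' → f Q' = f Q) →
    (∀ q ∈ RF, {Q : Fo | Q ∈ FQ D r ∧ sig D Q q ≠ 0}.Finite) →
    4 * ∑ Q ∈ R, f Q * NG t u Q =
      ∑ q ∈ RF, cQ q * ∑ᶠ Q : Fo, if Q ∈ FQ D r then f Q * sig D Q q else 0

/-- the inverse of `Q ↦ (Q ∘ W) / 3`, `W = (3, 1; 15, 6)` -/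
def Wi (Q : Fo) : Fo := ((act Q 6 (-1) (-15) 3).1 / 3, (act Q 6 (-1) (-15) 3).2.1 / 3,
  (act Q 6 (-1) (-15) 3).2.2 / 3)

/-- C8 (UNF): the sum over the classes as a sum over forms -/
def S_UNF : Prop := ∀ D : ℕ, Squarefree D → Fm D → D ≠ 1 →
  ∀ r : ZMod 5, r ^ 2 = (D : ZMod 5) → ∀ t u : ℤ, Fund D t u →
  ∀ R : Finset Fo, IsRep 15 (FQ D r) R →
  ∀ f : Fo → ℤ, (∀ Q ∈ FQ D r, ∀ Q', Eqv 15 Q Q' → f Q' = f Q) →
    ∑ Q ∈ R, f Q * NG t u Q = ∑ j ∈ ({1, -1} : Finset ℤ), chi4 j * ∑ᶠ Q : Fo,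
      if Q ∈ FQ' D r ∧ Q.1 * ev Q (-j) 4 < 0 then Q.1.sign * f (Wi Q) else 0

/-- C8: from U12; representatives `± (75 j - 120, 44 - 30 j, 3 j - 4)`, `j = 0, 1, 2, 3` -/
def S_U34 : Prop := S_NC → S_U12 → S_STAB → S_NHOM → S_UNF

/-- C8 (CHW): the genus characters and `W` -/
def S_CHW : Prop := ∀ D : ℕ, Squarefree D → Fm D → ∀ r : ZMod 5, r ^ 2 = (D : ZMod 5) →
  ∀ Q ∈ FQ' D r, ∀ d : ℕ, d ∣ D → Fm d → chD d (Wi Q) = chD d Q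

/-! ### evaluation -/

/-- the sum over `j` -/
def JJ (b A A2 : ℤ) : ℤ := ∑ j ∈ ({1, -1} : Finset ℤ),
  if (A - b) % 2 = 0 ∧ (A2 - A - 2 * b * j) % 16 = 0 then chi4 j else 0

/-- the genus character in terms of `A` and `A'' = Δ / A` -/
def KK (d A A2 : ℕ) : ℤ := ∏ p ∈ d.primeFactors,
  if p ∣ A then jacobiSym (-(A2 : ℤ)) p else jacobiSym A p

/-- the values of `b` -/
def rb (D1 D2 : ℕ) (r : ZMod 5) : Finset ℤ := (rg (D1 * D2)).filter fun b : ℤ =>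
  b % 3 = 1 ∧ (b : ZMod 5) = 2 * r ∧ 0 < dis D1 D2 b

/-- C9 (EVAL1): the forms in terms of `b = 2 B - A j` and `A`, `A'' = - Q(-j, 4)` -/
def S_EVAL1 : Prop := ∀ D1 D2 : ℕ, Squarefree D1 → Fm D1 → Squarefree D2 → Fm D2 →
  Nat.Coprime D1 D2 → (D1 ≠ 1 ∨ D2 ≠ 1) → ∀ r : ZMod 5, r ^ 2 = ((D1 * D2 : ℕ) : ZMod 5) →
  (∑ j ∈ ({1, -1} : Finset ℤ), chi4 j * ∑ᶠ Q : Fo,
      if Q ∈ FQ' (D1 * D2) r ∧ Q.1 * ev Q (-j) 4 < 0 then Q.1.sign * chD D1 Q else 0) =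
    2 * ∑ b ∈ rb D1 D2 r, ∑ A ∈ (dis D1 D2 b).divisors.filter (15 ∣ ·),
      JJ b A (dis D1 D2 b / A : ℕ) * KK D1 A (dis D1 D2 b / A)

/-- C10 (MUL): the multiplicative sum -/
def S_MUL : Prop := ∀ d : ℕ, Squarefree d → Fm d → ∀ n : ℕ, 0 < n →
  (∀ l ∈ d.primeFactors, n.factorization l ≤ 1) →
  ∑ a ∈ n.divisors.filter (fun a => a % 2 = 1 ∧ 15 ∣ a), chi4 a * KK d a (n / a) = -loc d n

/-- C10 (EVAL2): evaluation for a fixed `b` -/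
def S_EVAL2 : Prop := S_MUL → ∀ D1 D2 : ℕ, Squarefree D1 → Fm D1 → Squarefree D2 → Fm D2 →
  Nat.Coprime D1 D2 → (D1 ≠ 1 ∨ D2 ≠ 1) → ∀ r : ZMod 5, r ^ 2 = ((D1 * D2 : ℕ) : ZMod 5) →
  ∀ b ∈ rb D1 D2 r,
  ∑ A ∈ (dis D1 D2 b).divisors.filter (15 ∣ ·),
      JJ b A (dis D1 D2 b / A : ℕ) * KK D1 A (dis D1 D2 b / A) =
    if b % 2 = 1 ∨ (D1 * D2) % 8 = 1 then
      wt (D1 * D2) b * (c2 D1 (dis D1 D2 b) b * loc D1 (dis D1 D2 b)) else 0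

/-- GEO: the geodesic identity -/
def S_GEO : Prop := ∀ D1 D2 : ℕ, Squarefree D1 → Fm D1 → Squarefree D2 → Fm D2 →
  Nat.Coprime D1 D2 → (D1 ≠ 1 ∨ D2 ≠ 1) →
  ∀ β1 β2 : ZMod 5, β1 ^ 2 = -(D1 : ZMod 5) → β2 ^ 2 = -(D2 : ZMod 5) →
  ∀ t u : ℤ, Fund (D1 * D2) t u → ∀ R : Finset Fo, IsRep 15 (FQ (D1 * D2) (-(β1 * β2))) R →
  2 * ∑ Q ∈ R, chD D1 Q * NG t u Q = pii D1 β1 * pii D2 β2

/-- C9: assembly of GEO -/
def S_GEOA : Prop := S_UNF → S_CHI → S_CHW → S_EVAL1 → S_EVAL2 → S_MUL → S_BIL → S_GEO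

/-! ### the sum over the genera -/

/-- square roots modulo `5` -/
def sq5 (p : ℕ) : ZMod 5 := if p % 5 = 1 ∨ p % 5 = 2 then 1 else 2

/-- the square root of `D` modulo `5` -/
def r5 (D : ℕ) : ZMod 5 := (∏ p ∈ D.primeFactors, sq5 p) *
  2 ^ ((D.primeFactors.filter fun p => p % 5 = 2 ∨ p % 5 = 3).card / 2)

/-- the Gross sum with the coherent choice of the root -/
def PI (D : ℕ) : ℤ := pii D (2 * r5 D)

/-- C11 (R5) -/
def S_R5 : Prop := (∀ D : ℕ, Squarefree D → Fm D → r5 D ^ 2 = (D : ZMod 5)) ∧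
  (∀ D1 D2 : ℕ, Squarefree D1 → Fm D1 → Squarefree D2 → Fm D2 → Nat.Coprime D1 D2 →
    r5 (D1 * D2) = r5 D1 * r5 D2) ∧ PI 1 = 1

/-- the sum over the genus of `n` -/
def SG (D : ℕ) (t u : ℤ) (R : Finset Fo) (n : ℤ) : ℤ :=
  ∑ Q ∈ R.filter (fun Q => ∀ p ∈ D.primeFactors, chp p Q = jacobiSym n p), NG t u Q

/-- C11 (GENUS): the sum over the divisors -/
def S_GENUS : Prop := S_CHI → S_NC → (∀ M b d : ℤ, M ∣ 15 * b * d - 1 → NN b M = NN d M) →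
  S_NGI → S_NHOM → ∀ D : ℕ, Squarefree D → Fm D → D ≠ 1 →
  ∀ r : ZMod 5, r ^ 2 = (D : ZMod 5) → ∀ t u : ℤ, Fund D t u →
  ∀ R : Finset Fo, IsRep 15 (FQ D r) R →
  2 * ∑ d ∈ D.divisors.filter Fm, ∑ Q ∈ R, chD d Q * NG t u Q =
    2 ^ D.primeFactors.card * (SG D t u R 1 + SG D t u R 3)

/-! ### the congruence -/

/-- the logarithm `(ℤ/15)^× / ± 1 → ℤ/4` -/
def log4 (d : ℤ) : ℤ := if d % 15 = 1 ∨ d % 15 = 14 then 0 else if d % 15 = 2 ∨ d % 15 = 13 then 1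
  else if d % 15 = 4 ∨ d % 15 = 11 then 2 else 3

/-- the forms of discriminant `1` of level `5` -/
def G5 (q : Fo) : Prop := dsc q = 1 ∧ 5 ∣ q.1 ∧ q.2.1 % 10 = 1

/-- twice the value at `(1 + i) / 2` -/
def s5 (q : Fo) : ℤ := q.1 + q.2.1 + 2 * q.2.2

/-- the crossing number of `z₀ = (1 + i) / 2` and `g z₀` with the geodesics of `G5` -/
def rho (a b c d : ℤ) : ℤ := ∑ᶠ q : Fo,
  if G5 q ∧ 0 < s5 q ∧ s5 (act q a b c d) < 0 then 1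
  else if G5 q ∧ s5 q < 0 ∧ 0 < s5 (act q a b c d) then -1 else 0

/-- C12 (RHO): a homomorphism on `Γ₀(5)` -/
def S_RHO : Prop :=
  (∀ a b c d a' b' c' d' : ℤ, a * d - b * c = 1 → 5 ∣ c → a' * d' - b' * c' = 1 → 5 ∣ c' →
    rho (a * a' + b * c') (a * b' + b * d') (c * a' + d * c') (c * b' + d * d') =
      rho a b c d + rho a' b' c' d') ∧
  rho 1 1 0 1 = -1 ∧ rho (-1) 0 0 (-1) = 0 ∧ rho 2 (-1) 5 (-2) = 0 ∧ rho (-2) (-1) 5 2 = 0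

/-- C12 (RPAR): the parity, on generators of `Γ₀(5)` -/
def S_RPAR : Prop := S_RHO → ∀ a b c d : ℤ, a * d - b * c = 1 → 5 ∣ c →
  (Even (rho a b c d) ↔
    (jacobiSym d 5 = 1 ↔ (¬ Even (a + d) ∨ (Even b ∧ Even c))))

/-- C12 (RQ): the parity for the automorphs -/
def S_RQ : Prop := S_RPAR → S_RHO → ∀ D : ℕ, D % 4 = 1 → ∀ t u : ℤ, t ^ 2 - D * u ^ 2 = 4 →
  ∀ Q : Fo, dsc Q = D → 5 ∣ Q.1 →
  (Even (rho ((t - Q.2.1 * u) / 2) (-(Q.2.2 * u)) (Q.1 * u) (dQ t u Q)) ↔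
    jacobiSym (dQ t u Q) 5 = 1)

/-- C13 (STAR): the congruence modulo `8`, on generators of `Γ₀(15)` -/
def S_STAR : Prop := S_NC → S_NHOM → S_RHO → ∀ a b c d : ℤ, a * d - b * (15 * c) = 1 →
  (8 : ℤ) ∣ NN b d + 2 * log4 d - 2 * rho a b (15 * c) d - 2 * rho a (3 * b) (5 * c) d

/-! ### classes and levels -/

/-- the second map to level `5` -/
def q3 (Q : Fo) : Fo := (Q.1 / 3, Q.2.1, 3 * Q.2.2)

/-- C14 (FIN): finiteness of the class number -/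
def S_FIN : Prop := ∀ D : ℕ, Squarefree D → Fm D → D ≠ 1 → ∀ r : ZMod 5, r ^ 2 = (D : ZMod 5) →
  ∃ R : Finset Fo, IsRep 15 (FQ D r) R

/-- C14 (LEV): change of the level -/
def S_LEV : Prop := ∀ D : ℕ, Squarefree D → Fm D → D ≠ 1 → ∀ r : ZMod 5, r ^ 2 = (D : ZMod 5) →
  ∀ R : Finset Fo, IsRep 15 (FQ D r) R →
  IsRep 5 (F5 D r) R ∧ IsRep 1 (F1 D) R ∧ IsRep 5 (F5 D r) (R.image q3) ∧ Set.InjOn q3 R

/-- C15 (ELL): `dQ` modulo `15` is constant -/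
def S_ELL : Prop := ∀ D : ℕ, Squarefree D → Fm D → D ≠ 1 → ∀ r : ZMod 5, r ^ 2 = (D : ZMod 5) →
  ∀ t u : ℤ, Fund D t u → ∃ ℓ : ℤ, ∀ Q ∈ FQ D r, log4 (dQ t u Q) = ℓ

/-- C15 (TT8): the congruence for the sum over the genera -/
def S_TT8 : Prop := S_STAR → S_NC → S_NHOM → S_RHO → S_RPAR → S_RQ → S_LEV → S_CHI → S_ELL →
  ∀ D : ℕ, Squarefree D → Fm D → D ≠ 1 → ∀ r : ZMod 5, r ^ 2 = (D : ZMod 5) →
  ∀ t u : ℤ, Fund D t u → ∀ R : Finset Fo, IsRep 15 (FQ D r) R →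
  ∀ ℓ : ℤ, (∀ Q ∈ FQ D r, log4 (dQ t u Q) = ℓ) →
  (8 : ℤ) ∣ SG D t u R 1 + SG D t u R 3 -
    4 * ℓ * (R.filter fun Q => ∀ p ∈ D.primeFactors, chp p Q = 1).card

/-- C16 (PM): the splitting of `t² - 4 = D u²` -/
def S_PM : Prop := ∀ D : ℕ, Squarefree D → Fm D → D ≠ 1 → Crit D → ∀ t u : ℤ, Fund D t u →
  ∃ (m m' : ℕ) (x y : ℤ), m * m' = D ∧ t + 2 = m * x ^ 2 ∧ t - 2 = m' * y ^ 2 ∧ u = x * y ∧
    (m : ℤ) * x ^ 2 - m' * y ^ 2 = 4 ∧ jacobiSym m 5 = -1 ∧ jacobiSym m' 5 = -1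

/-- C16 (PELL): the criterion and the fundamental unit -/
def S_PELL : Prop := S_PM → ∀ D : ℕ, Squarefree D → Fm D → D ≠ 1 → Crit D →
  ∀ r : ZMod 5, r ^ 2 = (D : ZMod 5) → ∀ t u : ℤ, Fund D t u →
  ∀ Q ∈ FQ D r, Odd (log4 (dQ t u Q))

/-- C17 (ODDG): the criterion and the principal genus -/
def S_ODDG : Prop := S_PM → S_FUND → ∀ D : ℕ, Squarefree D → Fm D → D ≠ 1 → Crit D → ∀ R : Finset Fo, IsRep 1 (F1 D) R →
  Odd (R.filter fun Q => ∀ p ∈ D.primeFactors, chp p Q = 1).card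

/-- IND: the divisibility and the parity of the Gross sums -/
def S_IND : Prop := ∀ D : ℕ, Squarefree D → Fm D → D ≠ 1 →
  ∃ y : ℤ, PI D = 2 ^ (D.primeFactors.card + 1) * y ∧ (Crit D → Odd y)

/-- C18: the induction; the assembled form -/
def S_INDA : Prop := S_GEO → S_R5 → S_FUND → S_FIN → S_LEV →
  (∀ D : ℕ, Squarefree D → Fm D → D ≠ 1 →
    ∀ r : ZMod 5, r ^ 2 = (D : ZMod 5) → ∀ t u : ℤ, Fund D t u →
    ∀ R : Finset Fo, IsRep 15 (FQ D r) R →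
    2 * ∑ d ∈ D.divisors.filter Fm, ∑ Q ∈ R, chD d Q * NG t u Q =
      2 ^ D.primeFactors.card * (SG D t u R 1 + SG D t u R 3)) →
  (∀ D : ℕ, Squarefree D → Fm D → D ≠ 1 → ∀ r : ZMod 5, r ^ 2 = (D : ZMod 5) →
    ∀ t u : ℤ, Fund D t u → ∀ R : Finset Fo, IsRep 15 (FQ D r) R →
    ∀ ℓ : ℤ, (∀ Q ∈ FQ D r, log4 (dQ t u Q) = ℓ) →
    (8 : ℤ) ∣ SG D t u R 1 + SG D t u R 3 -
      4 * ℓ * (R.filter fun Q => ∀ p ∈ D.primeFactors, chp p Q = 1).card) →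
  S_ELL → S_PM → S_PELL → S_ODDG → S_IND

/-- FINAL C: the character sum of the modular symbol -/
def S_MAINC : Prop := ∀ (s : ℚ → ℤ) (a : ℕ → ℤ), Symb15 s a → ∀ D : ℕ, Squarefree D → Fm D →
  D ≠ 1 → ∃ y : ℤ, SS s D D = s 0 * (4 ^ (D.primeFactors.card + 1) * y ^ 2) ∧ (Crit D → Odd y)

/-- C18: assembly of the final statement -/
def S_MAINA : Prop := S_NC → S_NHOM → S_SYM → S_DIAG → S_IND → S_R5 → S_MAINC

end

end Pool.Agent.H757_X15.CC
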