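import Pool.Agent.H757_X15.StmC

/-!
# Project X15-C: the converse, the parity of the Gross sum is equivalent to the criterion
-/

set_option autoImplicit false
set_option linter.unusedVariables false

namespace Pool.Agent.H757_X15.CC

open Finset
open Pool.Agent.Y687 (SS rr)
open Pool.Agent.H757_X15 (Symb15)
open Pool.Agent.H757_X15.DD (Fm Crit)

open scoped Classical

noncomputable section

/-- C18 (IND0): the induction, in terms of the class group: `PI D = 2^(k+1) y`, `y ≡ ℓ |G₁|` modulo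
two.  (`S_IND` and `S_IND2` follow from it.) -/
def S_IND0 : Prop := ∀ D : ℕ, Squarefree D → Fm D → D ≠ 1 →
  ∀ t u : ℤ, Fund D t u → ∀ R : Finset Fo, IsRep 15 (FQ D (r5 D)) R →
  ∀ ℓ : ℤ, (∀ Q ∈ FQ D (r5 D), log4 (dQ t u Q) = ℓ) →
  ∃ y : ℤ, PI D = 2 ^ (D.primeFactors.card + 1) * y ∧
    (Odd y ↔ (Odd ℓ ∧ Odd (R.filter fun Q => ∀ p ∈ D.primeFactors, chp p Q = 1).card))

/-- C19a (PM0): the splitting of `t² - 4 = D u²` and its uniqueness -/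
def S_PM0 : Prop := ∀ D : ℕ, Squarefree D → Fm D → D ≠ 1 → ∀ t u : ℤ, Fund D t u →
  ∃ (m m' : ℕ) (x y : ℤ), m * m' = D ∧ m ≠ 1 ∧ t + 2 = m * x ^ 2 ∧ t - 2 = m' * y ^ 2 ∧ u = x * y ∧
    (m : ℤ) * x ^ 2 - m' * y ^ 2 = 4 ∧
    ∀ e e' : ℕ, e * e' = D → (∃ X Y : ℤ, (e : ℤ) * X ^ 2 - e' * Y ^ 2 = 4) → e = 1 ∨ e = m

/-- the conditions at the prime factors of `D` -/
def Hd (D d : ℕ) : Prop := d ∣ D ∧
  (∀ p : ℕ, p.Prime → p ∣ D → ¬ p ∣ d → jacobiSym d p = 1) ∧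
  (∀ p : ℕ, p.Prime → p ∣ d → jacobiSym (-((D / d : ℕ) : ℤ)) p = 1)

/-- C19b (HG): the group of the `d` is a vector space over `𝔽₂` -/
def S_HG : Prop := ∀ D : ℕ, Squarefree D → Fm D →
  (∀ d d' : ℕ, Hd D d → Hd D d' → Hd D (d * d' / Nat.gcd d d' ^ 2)) ∧
  ∃ h : ℕ, (D.divisors.filter (Hd D)).card = 2 ^ h

/-- C19b (AMB): the ambiguous classes in the principal genus are those of the forms
`(d, d, (d - D/d)/4)`; two of them are equivalent iff the product of the `d` is `1` or `m` modulo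
squares -/
def S_AMB : Prop := S_PM0 → ∀ D : ℕ, Squarefree D → Fm D → D ≠ 1 → ∀ t u : ℤ, Fund D t u →
  ∀ m : ℕ, m ∣ D → (∃ x : ℤ, t + 2 = m * x ^ 2) →
  Hd D m ∧ ∀ R : Finset Fo, IsRep 1 (F1 D) R →
  2 * ((R.filter fun Q => (∀ p ∈ D.primeFactors, chp p Q = 1) ∧
    Eqv 1 Q (Q.1, -Q.2.1, Q.2.2)).card) = (D.divisors.filter (Hd D)).card

/-- C20 (CG): the converse -/
def S_CG : Prop := S_PM0 → S_AMB → S_HG → ∀ D : ℕ, Squarefree D → Fm D → D ≠ 1 →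
  ∀ r : ZMod 5, r ^ 2 = (D : ZMod 5) → ∀ t u : ℤ, Fund D t u →
  (∀ Q ∈ FQ D r, Odd (log4 (dQ t u Q))) → (FQ D r).Nonempty → ∀ R : Finset Fo, IsRep 1 (F1 D) R →
  Odd (R.filter fun Q => ∀ p ∈ D.primeFactors, chp p Q = 1).card → Crit D

/-- IND2: the divisibility and the parity of the Gross sums -/
def S_IND2 : Prop := ∀ D : ℕ, Squarefree D → Fm D → D ≠ 1 →
  ∃ y : ℤ, PI D = 2 ^ (D.primeFactors.card + 1) * y ∧ (Odd y ↔ Crit D)

/-- FINAL C2: the character sum of the modular symbol -/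
def S_MAINC2 : Prop := ∀ (s : ℚ → ℤ) (a : ℕ → ℤ), Symb15 s a → ∀ D : ℕ, Squarefree D → Fm D →
  D ≠ 1 → ∃ y : ℤ, SS s D D = s 0 * (4 ^ (D.primeFactors.card + 1) * y ^ 2) ∧ (Odd y ↔ Crit D)

end

end Pool.Agent.H757_X15.CC
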