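import Pool.Agent.H757_X15.StmA
import Pool.Agent.H757_X15.StmC2
import Pool.Agent.Z702.Defs
import Pool.Agent.Y700.Fin

/-!
# Project X15-E: descent, Tamagawa numbers, assembly

`E_D : y² = x³ - 34 D x² + 225 D² x = x (x - 25 D) (x - 9 D)` (`x = 4 x' + 13 D` with `x'` the
coordinate of the minimal equation `WD D`), the isogenous curve
`E'_D : y² = x³ + 68 D x² + 256 D² x = x (x + 4 D) (x + 64 D)`.  See the paper, part 5.
-/

set_option autoImplicit false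
set_option linter.unusedVariables false

namespace Pool.Agent.H757_X15.EE

open Finset
open Pool.Agent.TH841.SH.D (Sha)
open Pool.Agent.TH841.SH
open Pool.Agent.Y668 hiding PC
open Pool.Agent.W97.MT (IsGloballyMinimal)
open Pool.Agent.Y700 (PC VR S_E0 tam tamProd Omega EQ)
open Pool.Agent.Z702 (WZ LocI S_COC S_LOT S_COB S_TRN S_LQ)
open Pool.Agent.H757_X15 (WD IsL Symb15 II)
open Pool.Agent.H757_X15.DD (Fm Crit)
open Pool.Agent.H757_X15.CC (Hd S_MAINC2)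

open scoped Classical

noncomputable section

/-! ### the 2-descent -/

/-- E1 (SELA): the first isogeny Selmer set (after `Z700.S_SELA`) -/
def S_SELA : Prop := ∀ D : ℕ, Squarefree D → Fm D → D ≠ 1 → Crit D → ∀ z : ℤ, Squarefree z → 0 < z →
  (∀ (l : ℕ) [Fact l.Prime], PC (-34 * (D : ℤ)) (225 * (D : ℤ) ^ 2) l z) → z = 1 ∨ z = D

/-- E2 (SELB): the second isogeny Selmer set (after `Z700.S_SELB`) -/
def S_SELB : Prop := ∀ D : ℕ, Squarefree D → Fm D → D ≠ 1 → Crit D → ∀ z : ℤ, Squarefree z →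
  (∀ (l : ℕ) [Fact l.Prime], PC (-2 * (-34 * (D : ℤ)))
    ((-34 * (D : ℤ)) ^ 2 - 4 * (225 * (D : ℤ) ^ 2)) l z) → z = 1 ∨ z = -(D : ℤ)

/-- E3 (CARD): the number of the Selmer cocycles (after `Y700.card_sel`) -/
def S_CARD : Prop := ∀ (a b : ℤ), a < 0 → 0 < b → 0 < a ^ 2 - 4 * b → ∀ S1 S2 : Set ℤ,
  S1.Finite → S2.Finite →
  (∀ z : ℤ, Squarefree z → 0 < z → (∀ (p : ℕ) [Fact p.Prime], PC a b p z) → z ∈ S1) →
  (∀ z : ℤ, Squarefree z → (∀ (p : ℕ) [Fact p.Prime], PC (-2 * a) (a ^ 2 - 4 * b) p z) → z ∈ S2) →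
  Finite (selCoc (Wt (a : ℚ) (b : ℚ))) ∧
    Nat.card (selCoc (Wt (a : ℚ) (b : ℚ))) ≤ S1.ncard * S2.ncard

/-- E3 (CNT4): full two-torsion and no point of order four (after `Y700.count`) -/
def S_CNT4 : Prop := ∀ a b e1 e2 : ℚ, a = -(e1 + e2) → b = e1 * e2 → e1 ≠ 0 → e2 ≠ 0 → e1 ≠ e2 →
  ¬ IsSquare e1 → ¬ IsSquare e2 → ¬ IsSquare (-e1) →
  Finite (selCoc (Wt a b)) → Nat.card (selCoc (Wt a b)) ≤ 4 →
  (∀ x : Sha (Wt a b), x + x = 0 → x = 0) ∧ Finite (Wt a b).toAffine.Point ∧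
    ∃ k : ℕ, Odd k ∧ Nat.card (Wt a b).toAffine.Point = 4 * k

/-- E4 (ALG): the algebraic side -/
def S_ALG : Prop := ∀ D : ℕ, Squarefree D → Fm D → D ≠ 1 → Crit D →
  (∀ (n : ℕ) (x : Sha (EQ (WD D))), 2 ^ n • x = 0 → x = 0) ∧ Finite (EQ (WD D)).toAffine.Point

/-- E4 (TOR4): the torsion subgroup has order four times an odd number (all `D`) -/
def S_TOR4 : Prop := ∀ D : ℕ, Squarefree D → Fm D → D ≠ 1 →
  ∃ k : ℕ, Odd k ∧ Nat.card (AddCommGroup.torsion (EQ (WD D)).toAffine.Point) = 4 * k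

/-- E4: assembly (VR (WZ (-34 D) (225 D²)) (EQ (WD D)) 2 (13 D) 1 4, `Y700.sha_two_pow`) -/
def S_ALGA : Prop := S_SELA → S_SELB → S_CARD → S_CNT4 → S_TRN → S_ALG

/-! ### Tamagawa numbers -/

/-- E5 (T3): type `I₄` at `3`, non-split -/
def S_T3 : Prop := S_E0 → ∀ (_ : Fact (Nat.Prime 3)) (M : ℤ), M % 4 = 1 → M % 3 = 1 →
  tam (WD M) 3 = 2

/-- E6 (T5): type `I₄` at `5`, split -/
def S_T5 : Prop := S_E0 → ∀ (_ : Fact (Nat.Prime 5)) (M : ℤ), M % 4 = 1 → (M % 5 = 1 ∨ M % 5 = 4) →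
  tam (WD M) 5 = 4

/-- E7 (TQ): type `I₀*` at the prime factors of `M`, all the points of order two are rational (after
`Y809.BSD14.t_TSP`) -/
def S_TQ : Prop := S_E0 → ∀ (M : ℤ) (q : ℕ) [Fact q.Prime], M % 4 = 1 → q ≠ 2 → q ≠ 3 → q ≠ 5 →
  (q : ℤ) ∣ M → ¬ ((q : ℤ) ^ 2 ∣ M) → tam (WD M) q = 4

/-- E7 (TAM): the product of the Tamagawa numbers -/
def S_TAM : Prop := S_E0 → S_T3 → S_T5 → S_TQ → ∀ D : ℕ, Squarefree D → Fm D →
  tamProd (WD D) = 2 ^ (2 * D.primeFactors.card + 3)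

/-! ### the converse -/

/-- E8 (LOCG): primes of good reduction (after `Z894.LG`) -/
def S_LOCG : Prop := ∀ (p : ℕ) [Fact p.Prime] (M d : ℤ), p ≠ 2 → p ≠ 3 → p ≠ 5 → ¬ (p : ℤ) ∣ M →
  ¬ (p : ℤ) ∣ d → LocI ℚ_[p] (-34 * M) (225 * M ^ 2) d

/-- E9 (LOCE): local solubility -/
def S_LOCE : Prop := S_LQ → S_LOCG → ∀ D : ℕ, Squarefree D → Fm D → ∀ d : ℕ, Hd D d →
  jacobiSym d 5 = 1 →
  (∀ (l : ℕ) [Fact l.Prime], LocI ℚ_[l] (-34 * (D : ℤ)) (225 * (D : ℤ) ^ 2) d) ∧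
  LocI ℝ (-34 * (D : ℤ)) (225 * (D : ℤ) ^ 2) d

/-- E10 (TORI): if there are finitely many rational points, then the classes of the rational points of
the isogenous curve are `1` and `-D` (after `Y545.Z702.Tor`) -/
def S_TORI : Prop := ∀ D : ℕ, Squarefree D → Fm D → D ≠ 1 →
  Finite (WZ (-34 * (D : ℤ)) (225 * (D : ℤ) ^ 2)).toAffine.Point → ∀ d : ℤ,
  LocI ℚ (-34 * (D : ℤ)) (225 * (D : ℤ) ^ 2) d → IsSquare (d : ℚ) ∨ IsSquare (-(D : ℚ) * d)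

/-- E10 (CONV): the converse -/
def S_CONV : Prop := S_COC → S_LOT → S_COB → S_TORI → S_LQ → S_LOCG → S_LOCE → S_TRN →
  ∀ D : ℕ, Squarefree D → Fm D → D ≠ 1 → Finite (EQ (WD D)).toAffine.Point →
  (∀ x : Sha (EQ (WD D)), x + x = 0 → x = 0) → Crit D

/-! ### the assembly -/

/-- E11 (FULL): everything for a given `D` -/
def S_FULL : Prop := ∀ D : ℕ, Squarefree D → Fm D → D ≠ 1 →
  IsGloballyMinimal (WD D) ∧ tamProd (WD D) = 2 ^ (2 * D.primeFactors.card + 3) ∧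
  0 < Omega (WD D) ∧
  (∃ k : ℕ, Odd k ∧ Nat.card (AddCommGroup.torsion (EQ (WD D)).toAffine.Point) = 4 * k) ∧
  (∃ (f : ℂ → ℂ) (w y : ℤ), IsL (WD D) f ∧ Odd w ∧ (Odd y ↔ Crit D) ∧
    f 1 * (Nat.card (AddCommGroup.torsion (EQ (WD D)).toAffine.Point) : ℂ) ^ 2 /
      ((Omega (WD D) : ℝ) * (tamProd (WD D) : ℂ)) = w * y ^ 2) ∧
  (Crit D ↔ (Finite (EQ (WD D)).toAffine.Point ∧ ∀ x : Sha (EQ (WD D)), x + x = 0 → x = 0)) ∧
  (Crit D → ∀ (n : ℕ) (x : Sha (EQ (WD D))), 2 ^ n • x = 0 → x = 0)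

/-- E11 (UNIQ): uniqueness of the L-function -/
def S_UNIQ : Prop := ∀ (W : WeierstrassCurve ℤ) (f g : ℂ → ℂ), IsL W f → IsL W g → f = g

/-- E11: assembly; `f 1 = ε SS Op / (4 √D)`, `SS = s 0 * (4^(k+1) y²)`, `Ω = 2 Op / √D` -/
def S_FULLA : Prop := S_SYMB → S_VAL → S_MOD → S_OMEGA → S_MAINC2 →
  (∀ D : ℕ, Squarefree D → Fm D → tamProd (WD D) = 2 ^ (2 * D.primeFactors.card + 3)) →
  S_ALG → S_TOR4 →
  (∀ D : ℕ, Squarefree D → Fm D → D ≠ 1 → Finite (EQ (WD D)).toAffine.Point →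
    (∀ x : Sha (EQ (WD D)), x + x = 0 → x = 0) → Crit D) → S_FULL

/-- E12 (RANK): the rank form for the short equation -/
def S_RANK : Prop := ∀ D : ℕ, Squarefree D → Fm D → D ≠ 1 → Crit D →
  Finite (WeierstrassCurve.mk 0 0 0 (-12987 * (D : ℚ) ^ 2) (-263466 * (D : ℚ) ^ 3)).toAffine.Point ∧
  ∃ f : ℂ → ℂ, Differentiable ℂ f ∧
    (∀ z : ℂ, (3 : ℝ) / 2 < z.re →
      HasProd (fun p : {p : ℕ // p.Prime ∧
          ¬ ((p : ℤ) ∣ 2 * (4 * (-12987 * (D : ℤ) ^ 2) ^ 3 + 27 * (-263466 * (D : ℤ) ^ 3) ^ 2))} =>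
        facL (-12987 * (D : ℤ) ^ 2) (-263466 * (D : ℤ) ^ 3) z p) (f z)) ∧ f 1 ≠ 0

/-- E13 (CLASS): the class has density `5 / (16 π²)` in the integers -/
def S_CLASS : Prop := Filter.Tendsto
  (fun X : ℕ => (((Icc 1 X).filter fun D => Squarefree D ∧ Fm D).card : ℝ) / X)
  Filter.atTop (nhds (5 / (16 * Real.pi ^ 2)))

/-- E13 (SQF): the squarefree numbers have density `6 / π²` -/
def S_SQF : Prop := Filter.Tendsto
  (fun X : ℕ => (((Icc 1 X).filter fun D => Squarefree D).card : ℝ) / X)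
  Filter.atTop (nhds (6 / Real.pi ^ 2))

end

end Pool.Agent.H757_X15.EE
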